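import Pool.Agent.H76.PS.Defs

/-!
# Job A2 of project PS: corestriction from a subgroup of index two
-/

set_option autoImplicit false
set_option linter.unusedSectionVars false

namespace Pool.Agent.K7.H29.PS

open Pool.Agent.H76.PS

variable {G : Type} [Group G] [TopologicalSpace G] [IsTopologicalGroup G]

theorem z2_add_self (x : ZMod 2) : x + x = 0 := CharTwo.add_self_eq_zero x

/-- a function that is invariant under left translation by an open neighbourhood of `1` is locally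
constant -/
theorem lc_of_inv {X : Type} {f : G → X} {V : Set G} (hV : IsOpen V) (h1 : (1 : G) ∈ V)
    (h : ∀ v ∈ V, ∀ g, f (v * g) = f g) : IsLocallyConstant f := by
  rw [IsLocallyConstant.iff_exists_open]
  intro g
  refine ⟨(fun x => x * g⁻¹) ⁻¹' V, hV.preimage (by fun_prop), by simpa using h1, ?_⟩
  intro x hx
  have := h _ hx g
  simpa using this

section
variable {Q : Subgroup G} {t : G}

theorem mem_iff2 (hQ : Q.index = 2) (x y : G) : x * y ∈ Q ↔ (x ∈ Q ↔ y ∈ Q) :=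
  Subgroup.mul_mem_iff_of_index_two hQ

theorem mul_inv_mem (hQ : Q.index = 2) (ht : t ∉ Q) {g : G} (hg : g ∉ Q) : g * t⁻¹ ∈ Q := by
  rw [mem_iff2 hQ, Subgroup.inv_mem_iff]
  tauto

theorem conj_mem2 (hQ : Q.index = 2) {q : G} (hq : q ∈ Q) (g : G) : g * q * g⁻¹ ∈ Q := by
  rw [mem_iff2 hQ, mem_iff2 hQ, Subgroup.inv_mem_iff]
  tauto

theorem bt_mem (b : Q → ZMod 2) {q : G} (hq : q ∈ Q) : bt Q t b q = b ⟨q, hq⟩ := by
  unfold bt
  rw [dif_pos hq]

theorem bt_mul_t (hQ : Q.index = 2) (ht : t ∉ Q) (b : Q → ZMod 2) {q : G} (hq : q ∈ Q) :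
    bt Q t b (q * t) = b ⟨q, hq⟩ := by
  unfold bt
  have h1 : q * t ∉ Q := by
    rw [mem_iff2 hQ]
    tauto
  have h2 : q * t * t⁻¹ = q := by group
  rw [dif_neg h1, dif_pos (by rw [h2]; exact hq)]
  congr 2

/-- every element is in `Q` or in `Q t` -/
theorem cases2 (hQ : Q.index = 2) (ht : t ∉ Q) (g : G) : g ∈ Q ∨ ∃ q ∈ Q, g = q * t := by
  by_cases h : g ∈ Q
  · exact Or.inl h
  · exact Or.inr ⟨g * t⁻¹, mul_inv_mem hQ ht h, by group⟩

end

theorem hs_mul {b : G → ZMod 2} (hb : b ∈ HS G) (x y : G) : b (x * y) = b x + b y := hb.2 x y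

theorem hs_one {b : G → ZMod 2} (hb : b ∈ HS G) : b 1 = 0 := by
  have := hb.2 1 1
  rw [mul_one] at this
  have h2 : b 1 + 0 = b 1 + b 1 := by rw [add_zero]; exact this
  exact (add_left_cancel h2).symm

variable {Q : Subgroup G} {t : G}

theorem bt_left (hQ : Q.index = 2) (ht : t ∉ Q) {b : Q → ZMod 2} (hb : b ∈ HS Q) {q : G} (hq : q ∈ Q)
    (g : G) : bt Q t b (q * g) = b ⟨q, hq⟩ + bt Q t b g := by
  rcases cases2 hQ ht g with hg | ⟨q', hq', rfl⟩
  · rw [bt_mem b (Q.mul_mem hq hg), bt_mem b hg]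
    exact hb.2 ⟨q, hq⟩ ⟨g, hg⟩
  · rw [← mul_assoc, bt_mul_t hQ ht b (Q.mul_mem hq hq'), bt_mul_t hQ ht b hq']
    exact hb.2 ⟨q, hq⟩ ⟨q', hq'⟩

theorem bt_lc (hQo : IsOpen (Q : Set G)) (hQ : Q.index = 2) (ht : t ∉ Q) {b : Q → ZMod 2}
    (hb : b ∈ HS Q) : IsLocallyConstant (bt Q t b) := by
  have h1 : IsOpen (Subtype.val '' (b ⁻¹' {0}) : Set G) :=
    hQo.isOpenEmbedding_subtypeVal.isOpenMap _ (hb.1 _)
  refine lc_of_inv h1 ⟨1, ?_, rfl⟩ ?_
  · have := hb.2 1 1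
    rw [mul_one] at this
    have h2 : b 1 + 0 = b 1 + b 1 := by rw [add_zero]; exact this
    exact (add_left_cancel h2).symm
  · rintro v ⟨w, hw, rfl⟩ g
    have hw' : b w = 0 := hw
    rw [bt_left hQ ht hb w.2, show (⟨(w : G), w.2⟩ : Q) = w from rfl, hw', zero_add]

theorem cor_q (hQ : Q.index = 2) (ht : t ∉ Q) (b : Q → ZMod 2) {q : G} (hq : q ∈ Q) :
    cor Q t b q = b ⟨q, hq⟩ + b ⟨t * q * t⁻¹, conj_mem2 hQ hq t⟩ := by
  unfold cor
  rw [bt_mem b hq]
  congr 1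
  have h : t * q = t * q * t⁻¹ * t := by group
  exact (congrArg (bt Q t b) h).trans (bt_mul_t hQ ht b (conj_mem2 hQ hq t))

theorem cor_mul_left (hQ : Q.index = 2) (ht : t ∉ Q) {b : Q → ZMod 2} (hb : b ∈ HS Q) {q : G}
    (hq : q ∈ Q) (g : G) : cor Q t b (q * g) = cor Q t b q + cor Q t b g := by
  rw [cor_q hQ ht b hq]
  unfold cor
  have h : t * (q * g) = t * q * t⁻¹ * (t * g) := by group
  rw [bt_left hQ ht hb hq, h, bt_left hQ ht hb (conj_mem2 hQ hq t)]
  abel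

theorem t_sq_mem (hQ : Q.index = 2) (t : G) : t * t ∈ Q := by
  rw [mem_iff2 hQ]

theorem cor_t_left (hQ : Q.index = 2) (ht : t ∉ Q) {b : Q → ZMod 2} (hb : b ∈ HS Q) (g : G) :
    cor Q t b (t * g) = b ⟨t * t, t_sq_mem hQ t⟩ + cor Q t b g := by
  unfold cor
  rw [← mul_assoc, bt_left hQ ht hb (t_sq_mem hQ t)]
  abel

theorem bt_one {b : Q → ZMod 2} (hb : b ∈ HS Q) : bt Q t b 1 = 0 := by
  rw [bt_mem b Q.one_mem]
  exact hs_one hb

theorem bt_t (hQ : Q.index = 2) (ht : t ∉ Q) {b : Q → ZMod 2} (hb : b ∈ HS Q) : bt Q t b t = 0 := by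
  have := bt_mul_t hQ ht b Q.one_mem
  rw [one_mul] at this
  rw [this]
  exact hs_one hb

theorem cor_t (hQ : Q.index = 2) (ht : t ∉ Q) {b : Q → ZMod 2} (hb : b ∈ HS Q) :
    cor Q t b t = b ⟨t * t, t_sq_mem hQ t⟩ := by
  have h := cor_t_left hQ ht hb 1
  rw [mul_one] at h
  rw [h]
  unfold cor
  rw [mul_one, bt_one hb, bt_t hQ ht hb]
  simp

theorem cor_mul (hQ : Q.index = 2) (ht : t ∉ Q) {b : Q → ZMod 2} (hb : b ∈ HS Q) (x y : G) :
    cor Q t b (x * y) = cor Q t b x + cor Q t b y := by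
  rcases cases2 hQ ht x with hx | ⟨q, hq, rfl⟩
  · exact cor_mul_left hQ ht hb hx y
  · rw [mul_assoc, cor_mul_left hQ ht hb hq, cor_mul_left hQ ht hb hq, cor_t_left hQ ht hb,
      cor_t hQ ht hb]
    abel

theorem cor_mem (hQo : IsOpen (Q : Set G)) (hQ : Q.index = 2) (ht : t ∉ Q) {b : Q → ZMod 2}
    (hb : b ∈ HS Q) : cor Q t b ∈ HS G := by
  refine ⟨?_, cor_mul hQ ht hb⟩
  have h1 := bt_lc hQo hQ ht hb
  have h2 : IsLocallyConstant fun g => bt Q t b (t * g) :=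
    h1.comp_continuous (f := fun g : G => t * g) (by fun_prop)
  exact h1.add h2

theorem bt_add (b b' : Q → ZMod 2) (g : G) : bt Q t (b + b') g = bt Q t b g + bt Q t b' g := by
  unfold bt
  split_ifs <;> simp

theorem cor_add (b b' : Q → ZMod 2) : cor Q t (b + b') = cor Q t b + cor Q t b' := by
  funext g
  simp only [cor, Pi.add_apply, bt_add]
  abel

theorem cor_eq_zero (hQo : IsOpen (Q : Set G)) (hQ : Q.index = 2) (ht : t ∉ Q) {b : Q → ZMod 2}
    (hb : b ∈ HS Q) : cor Q t b = 0 ↔ ∃ ψ ∈ HS G, ∀ q : Q, b q = ψ q := by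
  constructor
  · intro h
    refine ⟨bt Q t b, ⟨bt_lc hQo hQ ht hb, ?_⟩, fun q => (bt_mem b q.2).symm⟩
    intro x y
    have h1 : bt Q t b (t * y) = bt Q t b y := by
      have h2 : bt Q t b y + bt Q t b (t * y) = 0 := congrFun h y
      have h3 : bt Q t b y + bt Q t b y = bt Q t b y + bt Q t b (t * y) := by
        rw [h2, z2_add_self]
      exact (add_left_cancel h3).symm
    rcases cases2 hQ ht x with hx | ⟨q, hq, rfl⟩
    · rw [bt_left hQ ht hb hx, bt_mem b hx]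
    · rw [mul_assoc, bt_left hQ ht hb hq, h1, bt_mul_t hQ ht b hq]
  · rintro ⟨ψ, hψ, h⟩
    have hcor : ∀ q ∈ Q, cor Q t b q = 0 := by
      intro q hq
      rw [cor_q hQ ht b hq, h, h]
      change ψ q + ψ (t * q * t⁻¹) = 0
      rw [hψ.2, hψ.2]
      have h4 : ψ t + ψ t⁻¹ = 0 := by
        rw [← hψ.2, mul_inv_cancel, hs_one hψ]
      have h5 : ψ q + (ψ t + ψ q + ψ t⁻¹) = (ψ q + ψ q) + (ψ t + ψ t⁻¹) := by abel
      rw [h5, h4, z2_add_self, add_zero]
    funext x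
    rw [Pi.zero_apply]
    rcases cases2 hQ ht x with hx | ⟨q, hq, rfl⟩
    · exact hcor x hx
    · rw [cor_mul hQ ht hb, hcor q hq, cor_t hQ ht hb, h]
      change 0 + ψ (t * t) = 0
      rw [hψ.2, z2_add_self, add_zero]

theorem cup_iff (hQo : IsOpen (Q : Set G)) (hQ : Q.index = 2) (ht : t ∉ Q) {y : G → ZMod 2}
    (_ : y ∈ HS G) : cup (chi Q) y ∈ B2 G ↔ ∃ b ∈ HS Q, cor Q t b = y := by
  constructor
  · rintro ⟨a, ha, h⟩
    have h0 : ∀ q ∈ Q, ∀ g, a (q * g) = a q + a g := by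
      intro q hq g
      have h1 := h q g
      unfold cup chi at h1
      rw [if_pos hq, zero_mul] at h1
      have h2 : (a q + a g) + (a q + a g) = (a q + a g) + a (q * g) := by
        rw [z2_add_self, ← h1]
      exact (add_left_cancel h2).symm
    have h1 : ∀ g, y g = a t + a g + a (t * g) := by
      intro g
      have h1 := h t g
      unfold cup chi at h1
      rwa [if_neg ht, one_mul] at h1
    have hb : (fun q : Q => a q) ∈ HS Q :=
      ⟨ha.comp_continuous continuous_subtype_val, fun x y => h0 x x.2 y⟩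
    refine ⟨fun q => a q, hb, ?_⟩
    funext g
    rw [h1]
    unfold cor
    rcases cases2 hQ ht g with hg | ⟨q, hq, rfl⟩
    · have h2 : t * g = t * g * t⁻¹ * t := by group
      rw [bt_mem _ hg]
      change a g + bt Q t (fun q : Q => a q) (t * g) = _
      have h3 : bt Q t (fun q : Q => a q) (t * g) = a (t * g * t⁻¹) := by
        conv_lhs => rw [h2]
        rw [bt_mul_t hQ ht _ (conj_mem2 hQ hg t)]
      have h4 : a (t * g) = a (t * g * t⁻¹) + a t := by
        conv_lhs => rw [h2]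
        rw [h0 _ (conj_mem2 hQ hg t)]
      rw [h3, h4]
      have h5 : a t + a g + (a (t * g * t⁻¹) + a t) = (a t + a t) + (a g + a (t * g * t⁻¹)) := by abel
      rw [h5, z2_add_self, zero_add]
    · have h2 : t * (q * t) ∈ Q := by
        rw [mem_iff2 hQ, mem_iff2 hQ]
        tauto
      rw [bt_mul_t hQ ht _ hq, bt_mem _ h2, h0 q hq]
      change a q + a (t * (q * t)) = _
      have h5 : a t + (a q + a t) + a (t * (q * t)) = (a t + a t) + (a q + a (t * (q * t))) := by abel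
      rw [h5, z2_add_self, zero_add]
  · rintro ⟨b, hb, rfl⟩
    refine ⟨bt Q t b, bt_lc hQo hQ ht hb, ?_⟩
    intro x z
    unfold cup chi
    rcases cases2 hQ ht x with hx | ⟨q, hq, rfl⟩
    · rw [if_pos hx, zero_mul, bt_left hQ ht hb hx, bt_mem b hx]
      have h5 : b ⟨x, hx⟩ + bt Q t b z + (b ⟨x, hx⟩ + bt Q t b z) = 0 := z2_add_self _
      exact h5.symm
    · have hn : q * t ∉ Q := by
        rw [mem_iff2 hQ]
        tauto
      rw [if_neg hn, one_mul, bt_mul_t hQ ht b hq, mul_assoc, bt_left hQ ht hb hq]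
      unfold cor
      have h5 : b ⟨q, hq⟩ + bt Q t b z + (b ⟨q, hq⟩ + bt Q t b (t * z)) =
        (b ⟨q, hq⟩ + b ⟨q, hq⟩) + (bt Q t b z + bt Q t b (t * z)) := by abel
      rw [h5, z2_add_self, zero_add]

/-- Job A2. -/
theorem stA2 : StA2 := by
  intro G _ _ _ Q t hQo hQ ht
  exact ⟨fun b hb => cor_mem hQo hQ ht hb, fun b b' => cor_add b b',
    fun b hb => cor_eq_zero hQo hQ ht hb, fun y hy => cup_iff hQo hQ ht hy⟩

end Pool.Agent.K7.H29.PS
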