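import Pool.Agent.K7.H29.PS.H

/-!
# Job H of project PS: assembly
-/

set_option autoImplicit false
set_option linter.unusedSectionVars false

namespace Pool.Agent.K7.H29.PS

open Pool.Agent.Y715.Gi (QB KK GK)
open Pool.Agent.Y715.Nr Pool.Agent.W237.RK
open Pool.Agent.Z384 (II DD DDs Fld)
open Pool.Agent.H76.PS

variable {s : QB}

/-- `√2` is not in `ℚ(√-d)` -/
theorem sqrt_two_not_mem {d : ℕ} (hs : s ^ 2 = -(d : QB)) (hd : d ≠ 0) {c : QB ≃ₐ[ℚ] QB}
    (hc : IsConj c) {z : QB} (hz : z ^ 2 = 2) : z ∉ KK s := by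
  intro hmem
  obtain ⟨u, v, rfl⟩ := Pool.Agent.Z384.KK_ex hs hmem
  have hs0 : s ≠ 0 := by
    rintro rfl
    have h1 : (d : QB) = 0 := by linear_combination hs
    exact hd (by exact_mod_cast h1)
  have h1 := congrArg c hz
  rw [map_pow, map_add, map_mul, map_ratCast, map_ratCast, conj_s hc hs hd, map_ofNat] at h1
  have h2 : (u : QB) * v * s * 4 = 0 := by linear_combination hz - h1
  have h3 : (u : QB) * v = 0 := by
    have h4 : (4 : QB) ≠ 0 := by norm_num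
    rcases mul_eq_zero.1 h2 with h | h
    · rcases mul_eq_zero.1 h with h' | h'
      · exact h'
      · exact absurd h' hs0
    · exact absurd h h4
  have h5 : (u : QB) ^ 2 - d * (v : QB) ^ 2 = 2 := by
    linear_combination hz - 2 * s * h3 - (v : QB) ^ 2 * hs
  have h6 : u ^ 2 - d * v ^ 2 = 2 := by exact_mod_cast h5
  have h7 : u * v = 0 := by exact_mod_cast h3
  rcases mul_eq_zero.1 h7 with h | h
  · rw [h] at h6
    have : (0 : ℚ) ≤ d * v ^ 2 := by positivity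
    nlinarith
  · rw [h] at h6
    have h8 : IsSquare ((2 : ℕ) : ℚ) := ⟨u, by push_cast; linarith⟩
    rw [Rat.isSquare_natCast_iff] at h8
    obtain ⟨r, hr⟩ := h8
    have : r < 2 := by nlinarith
    interval_cases r <;> omega

theorem dec3 : ∀ a : ZMod 4, ZMod.castHom (by norm_num : 2 ∣ 4) (ZMod 2) a = 0 → a = 0 ∨ a = 2 := by
  decide

theorem dec4 : ∀ a : ZMod 4, ZMod.castHom (by norm_num : 2 ∣ 4) (ZMod 2) a = 0 ↔ 2 * a = 0 := by
  decide

theorem dec5 : ∀ a b : ZMod 2, (a = 0 ↔ b = 0) → a = b := by decide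

/-- reduction modulo two -/
noncomputable abbrev cst : ZMod (2 ^ 2) →+* ZMod 2 :=
  ZMod.castHom (by norm_num : 2 ∣ 2 ^ 2) (ZMod 2)

theorem cst_zero {a : ZMod (2 ^ 2)} (h : cst a = 0) : a = (0 : ZMod 4) ∨ a = (2 : ZMod 4) := dec3 a h

theorem cst_iff (a : ZMod (2 ^ 2)) : cst a = 0 ↔ 2 * a = 0 := dec4 a

theorem cyc4_ne {ζ : QB} (h8 : ζ ^ 8 = -1) {d : ℕ} (hs : s ^ 2 = -(d : QB)) (hd : d ≠ 0)
    {c : QB ≃ₐ[ℚ] QB} (hc : IsConj c) {l : GK s → ZMod (2 ^ 2)} (hl : Cyc4 ζ l) :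
    ∃ σ, cst (l σ) ≠ 0 := by
  by_contra hcon
  push Not at hcon
  have hz0 := ze0 h8
  let z : QB := ζ ^ 2 + (ζ ^ 2)⁻¹
  have hz : z ^ 2 = 2 := by
    have h1 : z ^ 2 = (ζ ^ 8 + 1) / ζ ^ 4 + 2 := by
      simp only [z]
      field_simp
      ring
    rw [h1, h8]
    ring
  refine sqrt_two_not_mem hs hd hc hz ?_
  have hfix : ∀ σ : GK s, σ z = z := by
    intro σ
    have hsq : (σ ζ) ^ 2 = ζ ^ 2 ∨ (σ ζ) ^ 2 = (ζ ^ 2)⁻¹ := by
      have h1 := hl σ
      have h9 : ζ ^ 3 ^ 2 = -ζ := by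
        rw [show 3 ^ 2 = 8 + 1 from rfl, pow_add, h8]
        ring
      rcases cst_zero (hcon σ) with h2 | h2
      · rw [h2] at h1
        have hv : ((0 : ZMod 4) : ZMod (2 ^ 2)).val = 0 := rfl
        unfold PP at h1
        rw [hv, pow_zero, pow_one] at h1
        rcases h1 with h1 | h1
        · left; rw [h1]
        · right; rw [h1, inv_pow]
      · rw [h2] at h1
        have hv : ((2 : ZMod 4) : ZMod (2 ^ 2)).val = 2 := rfl
        unfold PP at h1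
        rw [hv, h9] at h1
        rcases h1 with h1 | h1
        · left; rw [h1]; ring
        · right; rw [h1, inv_pow]; ring
    simp only [z]
    rw [map_add, map_inv₀, map_pow]
    rcases hsq with h | h
    · rw [h]
    · rw [h, inv_inv]
      ring
  have h2 := InfiniteGalois.mem_bot_iff_fixed (k := KK s) (K := QB) z
  rw [IntermediateField.mem_bot] at h2
  obtain ⟨q, hq⟩ := h2.2 hfix
  rw [← hq]
  exact q.2

theorem cup_symm {G : Type} [Group G] [TopologicalSpace G] {a b : G → ZMod 2} (ha : a ∈ HS G)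
    (hb : b ∈ HS G) : cup a b + cup b a ∈ B2 G := by
  refine ⟨fun x => a x * b x, ha.1.mul hb.1, fun x y => ?_⟩
  simp only [cup, Pi.add_apply, ha.2, hb.2]
  have h : ∀ p q u v : ZMod 2, p * v + u * q = p * u + q * v + (p + q) * (u + v) := by decide
  exact h _ _ _ _

theorem stH (hE : StE) (hE0 : StE0) (hD3 : StD3) (_ : StG1) : StH := by
  intro s d hs hF χ hχ χ' hχ' c hc cj hcj c' hc' hA
  have hd : d ≠ 0 := hF.ne_zero
  obtain ⟨ζ, h8⟩ := IsAlgClosed.exists_pow_nat_eq (-1 : QB) (n := 8) (by norm_num)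
  obtain ⟨r, hr⟩ := IsAlgClosed.exists_pow_nat_eq (2 : QB) (n := 4) (by norm_num)
  obtain ⟨y, hy⟩ := IsAlgClosed.exists_pow_nat_eq (Dd ζ 0) (n := 4) (by norm_num)
  have hr0 : r ≠ 0 := by
    rintro rfl
    norm_num at hr
  -- fixed by `Nf`
  have fζ : ∀ σ ∈ Nf s, σ ζ = ζ := by
    have e : ζ ^ 2 ^ 4 = 1 := pow16 h8
    refine fix_pow hD3 hE0 hs hF 4 ζ (by rw [e]; exact tu_one) fun σ _ => ?_
    rw [e, map_one]
  have fr : ∀ σ ∈ Nf s, σ r = r := by
    have e : r ^ 2 ^ 2 = 2 := hr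
    refine fix_pow hD3 hE0 hs hF 2 r (by rw [e]; exact tu_two) fun σ _ => ?_
    rw [e, map_ofNat]
  have fy : ∀ σ ∈ Nf s, σ y = y := by
    have e : y ^ 2 ^ 2 = Dd ζ 0 := hy
    refine fix_pow hD3 hE0 hs hF 2 y (by rw [e]; exact Dd_tu h8 0) fun σ hσ => ?_
    rw [e]
    have h1 : (σ : QB →+* QB) ζ = ζ ^ 3 ^ 0 ∨ (σ : QB →+* QB) ζ = (ζ ^ 3 ^ 0)⁻¹ := by
      left
      rw [pow_zero, pow_one]
      exact fζ σ hσ
    exact map_Dd (σ : QB →+* QB) h1
  -- the cochains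
  obtain ⟨l, hl⟩ := exists_cyc4 (s := s) h8
  obtain ⟨f, hf⟩ := exists_Ff h8 hr hy hl
  obtain ⟨κ₂, hκ₂⟩ := exists_kum (s := s) h8 hr0 (fun σ => by rw [hr, map_ofNat])
  have so : ∀ x : QB, IsOpen ((MulAction.stabilizer (GK s) x : Subgroup (GK s)) : Set (GK s)) :=
    fun x => stabilizer_isOpen_of_isIntegral (K := KK s) x
  let U : Subgroup (GK s) := MulAction.stabilizer (GK s) ζ ⊓ MulAction.stabilizer (GK s) y
  have hUo : IsOpen (U : Set (GK s)) := (so ζ).inter (so y)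
  have hUN : Nf s ≤ U := fun σ hσ => ⟨fζ σ hσ, fy σ hσ⟩
  have il : ∀ σ, ∀ τ ∈ U, l (σ * τ) = l σ := fun σ τ hτ => hl.inv h8 σ τ hτ.1
  have if' : ∀ σ, ∀ τ ∈ U, f (σ * τ) = f σ := fun σ τ hτ => hf.inv h8 hr hy hl σ τ hτ.2 hτ.1
  have dl := ds_mk hUN il
  have df := ds_mk hUN if'
  have ll := ds_lc hUo hUN il
  have lf := ds_lc hUo hUN if'
  -- the character `ψ₂`
  let ψ : Gs s → ZMod 2 := fun g => cst (ds l g)
  have hψ : ψ ∈ HS (Gs s) := by
    refine ⟨ll.comp cst, fun x y => ?_⟩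
    obtain ⟨σ, rfl⟩ := QuotientGroup.mk_surjective x
    obtain ⟨τ, rfl⟩ := QuotientGroup.mk_surjective y
    simp only [ψ]
    rw [← QuotientGroup.mk_mul, dl, dl, dl, hl.mul h8, map_add]
  have hψ0 : ψ ≠ 0 := by
    intro h
    obtain ⟨σ, hσ⟩ := cyc4_ne h8 hs hd hc hl
    apply hσ
    have h1 := congrFun h (QuotientGroup.mk σ)
    simp only [ψ, dl, Pi.zero_apply] at h1
    exact h1
  obtain ⟨b, hb, hcup⟩ := hA ψ hψ hψ0
  obtain ⟨b₀, x₀, hb₀, htu, hx₀, hbx⟩ := (hE s d hs hF).2.2 b hb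
  obtain ⟨x, hx⟩ := IsAlgClosed.exists_pow_nat_eq x₀ (n := 2) (by norm_num)
  have hx4 : x ^ 4 = b₀ := by
    rw [← hx₀, ← hx]
    ring
  have hx0 : x ≠ 0 := by
    rintro rfl
    exact htu.1 (by rw [← hx4]; norm_num)
  have fx : ∀ σ ∈ Nf s, σ x = x := by
    have e : x ^ 2 ^ 2 = b₀ := hx4
    refine fix_pow hD3 hE0 hs hF 2 x (by rw [e]; exact htu) fun σ _ => ?_
    rw [e]
    exact Pool.Agent.Z384.fixK σ hb₀
  obtain ⟨κ, hκ⟩ := exists_kum (s := s) h8 hx0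
    (fun σ => by rw [hx4]; exact Pool.Agent.Z384.fixK σ hb₀)
  have hVN : Nf s ≤ (MulAction.stabilizer (GK s) x : Subgroup (GK s)) := fun σ hσ => fx σ hσ
  have ik : ∀ σ, ∀ τ ∈ MulAction.stabilizer (GK s) x, κ (σ * τ) = κ σ :=
    fun σ τ hτ => hκ.inv h8 hx0 σ τ hτ
  have dk := ds_mk hVN ik
  have lk := ds_lc (so x) hVN ik
  -- `κ` modulo two
  have hkb : ∀ g : Gs s, cst (ds κ g) = b g := by
    intro g
    obtain ⟨σ, rfl⟩ := QuotientGroup.mk_surjective g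
    rw [dk]
    apply dec5
    rw [hbx, cst_iff]
    have h1 : σ x₀ = x₀ * ee ζ (2 * κ σ) := by
      have h2 : ee ζ (2 * κ σ) = ee ζ (κ σ) ^ 2 := by
        have := ee_nat h8 2 (κ σ)
        exact_mod_cast this
      rw [h2, ← hx, map_pow, hκ σ]
      ring
    have hx00 : x₀ ≠ 0 := by
      rw [← hx]
      exact pow_ne_zero 2 hx0
    constructor
    · intro h
      rw [h1, h, ee_zero, mul_one]
    · intro h
      apply ee_inj h8 QB2
      rw [ee_zero]
      apply mul_left_cancel₀ hx00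
      rw [← h1, h, mul_one]
  obtain ⟨j, hj⟩ := norm_two hc hs hd hb₀ htu
  obtain ⟨m, hm⟩ := Kum.conj h8 hχ hc hcj hr hκ₂ hx0 hκ (j := j) (by rw [hx4]; exact hj)
  have hχ4 : ∀ σ : GK s, PadicInt.toZModPow 2 (χ' (QuotientGroup.mk σ)) = c4 χ σ := by
    intro σ
    rw [hχ']
    rfl
  refine ⟨fun g h => ds κ g * ds l h, ?_, ?_, ?_, ?_⟩
  · exact (lk.comp_continuous continuous_fst).mul (ll.comp_continuous continuous_snd)
  · intro g h v
    obtain ⟨σ, rfl⟩ := QuotientGroup.mk_surjective g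
    obtain ⟨τ, rfl⟩ := QuotientGroup.mk_surjective h
    obtain ⟨ρ, rfl⟩ := QuotientGroup.mk_surjective v
    rw [hχ4, ← QuotientGroup.mk_mul, ← QuotientGroup.mk_mul]
    simp only [dk, dl]
    rw [hκ.mul h8 hχ hx0, hl.mul h8]
    ring
  · intro hmem
    apply hcup
    have h1 : (fun g h : Gs s => cst (ds κ g * ds l h)) = cup b ψ := by
      funext g h
      simp only [cup, ψ, map_mul, hkb]
    have h2 : cup b ψ ∈ B2 (Gs s) := by
      rw [← h1]
      exact hmem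
    have h3 := (B2 (Gs s)).sub_mem (cup_symm hψ hb) h2
    rwa [add_sub_cancel_right] at h3
  · refine ⟨fun g => -((j : ZMod (2 ^ 2)) * ds f g + m * ds l g), ?_, ?_⟩
    · have h1 : IsLocallyConstant fun g => (j : ZMod (2 ^ 2)) * ds f g :=
        lf.comp fun z => (j : ZMod (2 ^ 2)) * z
      have h2 : IsLocallyConstant fun g => m * ds l g := ll.comp fun z => m * z
      exact (h1.add h2).neg
    · intro g h
      obtain ⟨σ, rfl⟩ := QuotientGroup.mk_surjective g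
      obtain ⟨τ, rfl⟩ := QuotientGroup.mk_surjective h
      rw [hχ4, ← QuotientGroup.mk_mul, hc', hc']
      simp only [dk, dl, df]
      rw [hm, hl.conj h8 hc hcj, hl.mul h8]
      have hkey := hf.key h8 hχ hr hy hl hκ₂ σ τ
      linear_combination -(j : ZMod (2 ^ 2)) * hkey

end Pool.Agent.K7.H29.PS
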