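import Pool.Agent.K7.H29.PS.HB

/-!
# Job E2 of project PS: counting, extension and Kummer theory
-/

set_option autoImplicit false
set_option linter.unusedSectionVars false

namespace Pool.Agent.K7.H29.PS.E2

open Pool.Agent.Y715.Gi (QB KK GK)
open Pool.Agent.Y715.Nr Pool.Agent.W237.RK
open Pool.Agent.Z384 (II DD DDs Fld)
open Pool.Agent.H76.PS Pool.Agent.K7.H29.PS

variable {s : QB}

theorem z2' (x : ZMod 2) : x + x = 0 := CharTwo.add_self_eq_zero x

/-! ### Kummer characters -/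

open Classical in
/-- the Kummer character of `w` -/
noncomputable def kch (U : Subgroup (GK s)) (w : QB) (σ : U) : ZMod 2 :=
  if (σ : GK s) w = w then 0 else 1

/-- signs -/
noncomputable def sg (a : ZMod 2) : QB := if a = 0 then 1 else -1

theorem sg_add (a b : ZMod 2) : sg (a + b) = sg a * sg b := by
  have h : ∀ a : ZMod 2, a = 0 ∨ a = 1 := by decide
  have h10 : (1 : ZMod 2) ≠ 0 := by decide
  have h11 : (1 : ZMod 2) + 1 = 0 := by decide
  rcases h a with rfl | rfl <;> rcases h b with rfl | rfl <;> simp [sg, h10, h11]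

theorem sg_eq_one {a : ZMod 2} : sg a = 1 ↔ a = 0 := by
  unfold sg
  split_ifs with h
  · simp [h]
  · simp only [h, iff_false]
    norm_num

theorem kch_sg {U : Subgroup (GK s)} {w : QB} (hw : w ≠ 0) (h : ∀ σ ∈ U, σ (w ^ 2) = w ^ 2) (σ : U) :
    (σ : GK s) w = sg (kch U w σ) * w := by
  have h1 : ((σ : GK s) w) ^ 2 = w ^ 2 := by
    rw [← map_pow]
    exact h σ σ.2
  unfold kch sg
  by_cases h2 : (σ : GK s) w = w
  · simp [h2]
  · rw [if_neg h2]
    rcases sq_eq_sq_iff_eq_or_eq_neg.1 h1 with h3 | h3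
    · exact absurd h3 h2
    · rw [h3]
      simp

theorem kch_mem {U : Subgroup (GK s)} {w : QB} (hw : w ≠ 0) (h : ∀ σ ∈ U, σ (w ^ 2) = w ^ 2) :
    kch U w ∈ HS U := by
  have hVo : IsOpen ((MulAction.stabilizer (GK s) w : Subgroup (GK s)) : Set (GK s)) :=
    stabilizer_isOpen_of_isIntegral (K := KK s) w
  constructor
  · rw [IsLocallyConstant.iff_exists_open]
    intro g
    refine ⟨(fun y : U => ((g : GK s))⁻¹ * (y : GK s)) ⁻¹'
      ((MulAction.stabilizer (GK s) w : Subgroup (GK s)) : Set (GK s)),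
      hVo.preimage (by fun_prop), ?_, ?_⟩
    · change (g : GK s)⁻¹ * g ∈ MulAction.stabilizer (GK s) w
      rw [inv_mul_cancel]
      exact Subgroup.one_mem _
    · intro y hy
      have hy' : (((g : GK s))⁻¹ * (y : GK s)) w = w := hy
      have h1 : (y : GK s) w = (g : GK s) w := by
        have h2 : (y : GK s) = g * (((g : GK s))⁻¹ * (y : GK s)) := by group
        rw [h2, AlgEquiv.mul_apply, hy']
      unfold kch
      rw [h1]
  · intro σ τ
    have h1 : ((σ * τ : U) : GK s) w = (σ : GK s) ((τ : GK s) w) := rfl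
    have h2 : sg (kch U w (σ * τ)) * w = sg (kch U w σ + kch U w τ) * w := by
      have hfix : ∀ a : ZMod 2, (σ : GK s) (sg a) = sg a := by
        intro a
        unfold sg
        split_ifs
        · exact map_one _
        · rw [map_neg, map_one]
      rw [← kch_sg hw h (σ * τ), h1, kch_sg hw h τ, map_mul, hfix, kch_sg hw h σ, sg_add]
      ring
    have h3 := mul_right_cancel₀ hw h2
    have h4 : sg (kch U w (σ * τ) + (kch U w σ + kch U w τ)) = 1 := by
      rw [sg_add, h3, ← sg_add, z2']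
      simp [sg]
    have h5 := sg_eq_one.1 h4
    have h6 : ∀ a b : ZMod 2, a + b = 0 → a = b := by decide
    exact h6 _ _ h5

theorem kch_nf (hD3 : StD3) (hE0 : StE0) {d : ℕ} (hs : s ^ 2 = -(d : QB)) (hF : Fld d)
    {U : Subgroup (GK s)} (hN : Nf s ≤ U) {w : QB} (hw : TwoUnit (w ^ 2))
    (h : ∀ σ ∈ U, σ (w ^ 2) = w ^ 2) (σ : U) (hσ : (σ : GK s) ∈ Nf s) : kch U w σ = 0 := by
  have := fix_sq hD3 hE0 hs hF hw (fun τ hτ => h τ (hN hτ)) σ hσ
  unfold kch
  rw [if_pos this]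

theorem kch_prod {U : Subgroup (GK s)} {ι : Type} (w : ι → QB) (hw : ∀ i, w i ≠ 0)
    (h : ∀ i, ∀ σ ∈ U, σ (w i ^ 2) = w i ^ 2) (S : Finset ι) (σ : U) :
    (σ : GK s) (∏ i ∈ S, w i) = sg (∑ i ∈ S, kch U (w i) σ) * ∏ i ∈ S, w i := by
  classical
  induction S using Finset.induction_on with
  | empty => simp [sg]
  | insert i S hi ih =>
    rw [Finset.prod_insert hi, Finset.sum_insert hi, map_mul, ih, kch_sg (hw i) (h i) σ, sg_add]
    ring

/-! ### the space of the characters trivial on `Nf` -/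

/-- the characters of `U` that are trivial on `Nf` -/
def XU (U : Subgroup (GK s)) : Submodule (ZMod 2) (U → ZMod 2) where
  carrier := {φ | φ ∈ HS U ∧ ∀ σ : U, (σ : GK s) ∈ Nf s → φ σ = 0}
  add_mem' := by
    rintro φ φ' ⟨h1, h2⟩ ⟨h3, h4⟩
    exact ⟨(HS U).add_mem h1 h3, fun σ hσ => by rw [Pi.add_apply, h2 σ hσ, h4 σ hσ, add_zero]⟩
  zero_mem' := ⟨(HS U).zero_mem, fun _ _ => rfl⟩
  smul_mem' := by
    rintro a φ ⟨h1, h2⟩
    exact ⟨(HS U).smul_mem a h1, fun σ hσ => by rw [Pi.smul_apply, h2 σ hσ, smul_zero]⟩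

theorem hs_one' {G : Type} [Group G] [TopologicalSpace G] {b : G → ZMod 2} (hb : b ∈ HS G) : b 1 = 0 := by
  have := hb.2 1 1
  rw [mul_one] at this
  have h2 : b 1 + 0 = b 1 + b 1 := by rw [add_zero]; exact this
  exact (add_left_cancel h2).symm

theorem hs_inv {G : Type} [Group G] [TopologicalSpace G] {b : G → ZMod 2} (hb : b ∈ HS G) (x : G) :
    b x⁻¹ = b x := by
  have h := hb.2 x x⁻¹
  rw [mul_inv_cancel, hs_one' hb] at h
  have h6 : ∀ a b : ZMod 2, 0 = a + b → b = a := by decide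
  exact h6 _ _ h

/-- the restriction to the local group -/
noncomputable def res (r : Au 2 →* GK s) (U : Subgroup (GK s)) :
    (U → ZMod 2) →ₗ[ZMod 2] (U.comap r → ZMod 2) :=
  LinearMap.funLeft (ZMod 2) (ZMod 2) (r.subgroupComap U)

theorem res_mem {r : Au 2 →* GK s} (hr : Continuous r) {U : Subgroup (GK s)} {φ : U → ZMod 2}
    (hφ : φ ∈ HS U) : res r U φ ∈ HS (U.comap r) := by
  have hc : Continuous (r.subgroupComap U) := (hr.comp continuous_subtype_val).subtype_mk _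
  constructor
  · exact hφ.1.comp_continuous hc
  · intro x y
    change φ (r.subgroupComap U (x * y)) = φ (r.subgroupComap U x) + φ (r.subgroupComap U y)
    rw [map_mul, hφ.2]

theorem dens (hE0 : StE0) {d : ℕ} (hs : s ^ 2 = -(d : QB)) (hF : Fld d)
    (ι₀ : QB →ₐ[ℚ] PadicAlgCl 2) {U : Subgroup (GK s)} (hUo : IsOpen (U : Set (GK s)))
    (hN : Nf s ≤ U) {φ : U → ZMod 2} (hφ : φ ∈ XU U)
    (h0 : ∀ σ : U, (σ : GK s) ∈ DDs ι₀ → φ σ = 0) : φ = 0 := by
  -- the kernel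
  let W : Subgroup (GK s) :=
    { carrier := {x | ∃ h : x ∈ U, φ ⟨x, h⟩ = 0}
      mul_mem' := by
        rintro x y ⟨hx, hx'⟩ ⟨hy, hy'⟩
        refine ⟨mul_mem hx hy, ?_⟩
        have := hφ.1.2 ⟨x, hx⟩ ⟨y, hy⟩
        rw [hx', hy', add_zero] at this
        exact this
      one_mem' := ⟨one_mem U, hs_one' hφ.1⟩
      inv_mem' := by
        rintro x ⟨hx, hx'⟩
        refine ⟨inv_mem hx, ?_⟩
        have := hs_inv hφ.1 ⟨x, hx⟩
        rw [hx'] at this
        exact this }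
  have hWo : IsOpen (W : Set (GK s)) := by
    have h2 : IsOpen {x : U | φ x = 0} := hφ.1.1.isOpen_fiber 0
    have h3 := hUo.isOpenEmbedding_subtypeVal.isOpenMap _ h2
    convert h3 using 1
    ext x
    constructor
    · rintro ⟨h, h'⟩
      exact ⟨⟨x, h⟩, h', rfl⟩
    · rintro ⟨⟨y, hy⟩, h', rfl⟩
      exact ⟨hy, h'⟩
  have hWN : Nf s ≤ W := fun x hx => ⟨hN hx, hφ.2 ⟨x, hN hx⟩ hx⟩
  funext g
  obtain ⟨δ, hδ, h1, h2⟩ := (hE0 s d hs hF).2.2.2.2 ι₀ W hWo hWN (g : GK s)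
  have hδU : δ ∈ U := by
    have h3 : δ = (g : GK s) * (δ⁻¹ * g)⁻¹ := by group
    rw [h3]
    exact mul_mem g.2 (inv_mem h1)
  have h4 : g = (⟨δ, hδU⟩ : U) * ⟨δ⁻¹ * g, h1⟩ := by
    apply Subtype.ext
    change (g : GK s) = δ * (δ⁻¹ * g)
    group
  rw [h4, hφ.1.2, h2, h0 ⟨δ, hδU⟩ hδ]
  rfl

/-- the index of the local subgroup -/
theorem idx (hE0 : StE0) {d : ℕ} (hs : s ^ 2 = -(d : QB)) (hF : Fld d)
    (ι₀ : QB →ₐ[ℚ] PadicAlgCl 2) {r : Au 2 →* GK s} (hr : r.range = DDs ι₀) {U : Subgroup (GK s)}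
    (hUo : IsOpen (U : Set (GK s))) (hN : Nf s ≤ U) : (U.comap r).index = U.index := by
  rw [Subgroup.index_comap, hr]
  have hd := (hE0 s d hs hF).2.2.2.2 ι₀ U hUo hN
  -- cosets
  unfold Subgroup.relIndex
  have hb : Function.Bijective (fun x : (DDs ι₀ : Subgroup (GK s)) ⧸ U.subgroupOf (DDs ι₀) =>
      (Quotient.liftOn' x (fun δ => (QuotientGroup.mk (δ : GK s) : GK s ⧸ U)) (by
        intro a b hab
        rw [QuotientGroup.leftRel_apply] at hab
        rw [QuotientGroup.eq]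
        exact hab) : GK s ⧸ U)) := by
    constructor
    · intro x y hxy
      obtain ⟨a, rfl⟩ := QuotientGroup.mk_surjective x
      obtain ⟨b, rfl⟩ := QuotientGroup.mk_surjective y
      have hxy' : (QuotientGroup.mk (a : GK s) : GK s ⧸ U) = QuotientGroup.mk (b : GK s) := hxy
      rw [QuotientGroup.eq] at hxy'
      rw [QuotientGroup.eq]
      exact hxy'
    · intro x
      obtain ⟨g, rfl⟩ := QuotientGroup.mk_surjective x
      obtain ⟨δ, hδ, h1⟩ := hd g
      refine ⟨QuotientGroup.mk ⟨δ, hδ⟩, ?_⟩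
      change (QuotientGroup.mk δ : GK s ⧸ U) = QuotientGroup.mk g
      rw [QuotientGroup.eq]
      exact h1
  exact Nat.card_congr (Equiv.ofBijective _ hb)

/-- everything about one subgroup -/
theorem main (hC : StC) (hD : StD) (hD3 : StD3) (hE0 : StE0) (hE1 : StE1) {d : ℕ}
    (hs : s ^ 2 = -(d : QB)) (hF : Fld d) (ι₀ : QB →ₐ[ℚ] PadicAlgCl 2) {U : Subgroup (GK s)}
    (hUo : IsOpen (U : Set (GK s))) (hN : Nf s ≤ U) :
    Module.finrank (ZMod 2) (XU U) = U.index + 2 ∧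
    (∀ φ ∈ HS (U ⊓ DDs ι₀ : Subgroup (GK s)), ∃ φ' ∈ XU U,
        ∀ (σ : GK s) (h : σ ∈ U) (h' : σ ∈ U ⊓ DDs ι₀), φ' ⟨σ, h⟩ = φ ⟨σ, h'⟩) ∧
    (∀ φ ∈ XU U, ∃ b x : QB, (∀ σ ∈ U, σ b = b) ∧ TwoUnit b ∧ x ^ 2 = b ∧
      ∀ σ : U, φ σ = 0 ↔ (σ : GK s) x = x) := by
  classical
  obtain ⟨r, hrc, -, hrr⟩ := hE1 s d hs hF ι₀
  -- the local side
  have hVo : IsOpen ((U.comap r : Subgroup (Au 2)) : Set (Au 2)) := hUo.preimage hrc
  obtain ⟨hfin, hle⟩ := hC _ hVo
  rw [idx hE0 hs hF ι₀ hrr hUo hN] at hle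
  let L : XU U →ₗ[ZMod 2] HS (U.comap r) :=
    ((res r U).domRestrict (XU U)).codRestrict _ (fun φ => res_mem hrc φ.2.1)
  have hL : Function.Injective L := by
    rw [← LinearMap.ker_eq_bot, LinearMap.ker_eq_bot']
    rintro ⟨φ, hφ⟩ h
    apply Subtype.ext
    refine dens hE0 hs hF ι₀ hUo hN hφ fun σ hσ => ?_
    have hσ' : (σ : GK s) ∈ r.range := by rw [hrr]; exact hσ
    obtain ⟨τ, hτ⟩ := hσ'
    have h1 : res r U φ = 0 := congrArg Subtype.val h
    have h2 := congrFun h1 ⟨τ, by rw [Subgroup.mem_comap, hτ]; exact σ.2⟩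
    have h3 : (⟨r τ, by rw [hτ]; exact σ.2⟩ : U) = σ := Subtype.ext hτ
    rw [← h3]
    exact h2
  have hfX : Module.Finite (ZMod 2) (XU U) := Module.Finite.of_injective L hL
  have hle2 : Module.finrank (ZMod 2) (XU U) ≤ Module.finrank (ZMod 2) (HS (U.comap r)) :=
    LinearMap.finrank_le_finrank_of_injective hL
  -- the Kummer characters
  obtain ⟨u, hu1, hu2, hu3⟩ := hD s d hs hF U hUo
  choose w hw using fun i => IsAlgClosed.exists_pow_nat_eq (u i) (n := 2) (by norm_num)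
  have hw0 : ∀ i, w i ≠ 0 := by
    intro i h
    apply (hu2 i).1
    rw [← hw i, h]
    norm_num
  have hwf : ∀ i, ∀ σ ∈ U, σ (w i ^ 2) = w i ^ 2 := by
    intro i σ hσ
    rw [hw]
    exact hu1 i σ hσ
  have hmem : ∀ i, kch U (w i) ∈ XU U := fun i =>
    ⟨kch_mem (hw0 i) (hwf i), fun σ hσ => kch_nf hD3 hE0 hs hF hN (by rw [hw]; exact hu2 i) (hwf i) σ hσ⟩
  let ψ : Fin (U.index + 2) → XU U := fun i => ⟨kch U (w i), hmem i⟩
  have hval : ∀ (g : Fin (U.index + 2) → ZMod 2) (σ : U), ((∑ i, g i • ψ i : XU U) : U → ZMod 2) σ =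
      ∑ i ∈ Finset.univ.filter (fun i => g i ≠ 0), kch U (w i) σ := by
    intro g σ
    rw [Submodule.coe_sum, Finset.sum_apply, Finset.sum_filter]
    refine Finset.sum_congr rfl fun i _ => ?_
    have h01 : ∀ a : ZMod 2, a ≠ 0 → a = 1 := by decide
    split_ifs with h
    · rw [h01 _ h, one_smul]
    · rw [not_not.1 h, zero_smul]
      rfl
  have hli : LinearIndependent (ZMod 2) ψ := by
    rw [Fintype.linearIndependent_iff]
    intro g hg i
    have hS : Finset.univ.filter (fun i => g i ≠ 0) = ∅ := by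
      refine hu3 _ ⟨∏ i ∈ Finset.univ.filter (fun i => g i ≠ 0), w i, ?_, ?_⟩
      · intro σ hσ
        have h1 := kch_prod w hw0 hwf (Finset.univ.filter (fun i => g i ≠ 0)) ⟨σ, hσ⟩
        rw [← hval g, hg] at h1
        have h2 : sg (((0 : XU U) : U → ZMod 2) ⟨σ, hσ⟩) = 1 := by
          rw [sg_eq_one]
          rfl
        rw [h2, one_mul] at h1
        exact h1
      · rw [← Finset.prod_pow]
        exact Finset.prod_congr rfl fun i _ => hw i
    by_contra hne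
    have : i ∈ Finset.univ.filter (fun i => g i ≠ 0) := by
      rw [Finset.mem_filter]
      exact ⟨Finset.mem_univ i, hne⟩
    rw [hS] at this
    exact absurd this (Finset.notMem_empty i)
  have hge := hli.fintype_card_le_finrank
  rw [Fintype.card_fin] at hge
  have hX : Module.finrank (ZMod 2) (XU U) = U.index + 2 := by omega
  have hXH : Module.finrank (ZMod 2) (XU U) = Module.finrank (ZMod 2) (HS (U.comap r)) := by omega
  refine ⟨hX, ?_, ?_⟩
  · intro φ hφ
    have hsur : Function.Surjective L :=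
      (LinearMap.injective_iff_surjective_of_finrank_eq_finrank hXH).1 hL
    have hmemD : ∀ τ : U.comap r, r τ ∈ U ⊓ DDs ι₀ := by
      intro τ
      refine ⟨τ.2, ?_⟩
      rw [← hrr]
      exact ⟨τ, rfl⟩
    let φ₁ : U.comap r → ZMod 2 := fun τ => φ ⟨r τ, hmemD τ⟩
    have hφ₁ : φ₁ ∈ HS (U.comap r) := by
      constructor
      · exact hφ.1.comp_continuous
          (f := fun τ : U.comap r => (⟨r τ, hmemD τ⟩ : (U ⊓ DDs ι₀ : Subgroup (GK s)))) (by fun_prop)
      · intro x y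
        have h1 : (⟨r (x * y : U.comap r), hmemD (x * y)⟩ : (U ⊓ DDs ι₀ : Subgroup (GK s))) =
            ⟨r x, hmemD x⟩ * ⟨r y, hmemD y⟩ := by
          apply Subtype.ext
          exact map_mul r _ _
        simp only [φ₁]
        rw [h1, hφ.2]
    obtain ⟨⟨φ', hφ'⟩, hL'⟩ := hsur ⟨φ₁, hφ₁⟩
    refine ⟨φ', hφ', ?_⟩
    intro σ h h'
    have hσ' : σ ∈ r.range := by rw [hrr]; exact h'.2
    obtain ⟨τ, rfl⟩ := hσ'
    have h1 : res r U φ' = φ₁ := congrArg Subtype.val hL'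
    exact congrFun h1 ⟨τ, h⟩
  · intro φ hφ
    have hspan := hli.span_eq_top_of_card_eq_finrank' (by rw [Fintype.card_fin, hX])
    have h1 : (⟨φ, hφ⟩ : XU U) ∈ Submodule.span (ZMod 2) (Set.range ψ) := by
      rw [hspan]
      trivial
    rw [Submodule.mem_span_range_iff_exists_fun] at h1
    obtain ⟨g, hg⟩ := h1
    set S := Finset.univ.filter (fun i => g i ≠ 0) with hS
    have h2 : ∀ σ : U, φ σ = ∑ i ∈ S, kch U (w i) σ := by
      intro σ
      rw [← hval g, hg]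
    have hx0 : ∏ i ∈ S, w i ≠ 0 := Finset.prod_ne_zero_iff.2 fun i _ => hw0 i
    refine ⟨∏ i ∈ S, u i, ∏ i ∈ S, w i, ?_, ?_, ?_, ?_⟩
    · intro σ hσ
      rw [map_prod]
      exact Finset.prod_congr rfl fun i _ => hu1 i σ hσ
    · exact Finset.prod_induction _ TwoUnit (fun a b ha hb => tu_mul ha hb) tu_one fun i _ => hu2 i
    · rw [← Finset.prod_pow]
      exact Finset.prod_congr rfl fun i _ => hw i
    · intro σ
      rw [kch_prod w hw0 hwf S σ, h2]
      constructor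
      · intro h3
        rw [h3]
        simp [sg]
      · intro h3
        have h4 : sg (∑ i ∈ S, kch U (w i) σ) * ∏ i ∈ S, w i = 1 * ∏ i ∈ S, w i := by
          rw [h3, one_mul]
        exact sg_eq_one.1 (mul_right_cancel₀ hx0 h4)

/-! ### the quotient -/

/-- the preimage of a subgroup of the quotient -/
noncomputable abbrev pre (T : Subgroup (Gs s)) : Subgroup (GK s) := T.comap (QuotientGroup.mk' (Nf s))

theorem nf_pre (T : Subgroup (Gs s)) : Nf s ≤ pre T := by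
  intro x hx
  rw [Subgroup.mem_comap]
  have : QuotientGroup.mk' (Nf s) x = 1 := (QuotientGroup.eq_one_iff x).2 hx
  rw [this]
  exact one_mem T

/-- the projection -/
noncomputable def qq (T : Subgroup (Gs s)) (σ : pre T) : T := ⟨QuotientGroup.mk (σ : GK s), σ.2⟩

theorem qq_surj (T : Subgroup (Gs s)) : Function.Surjective (qq T) := by
  rintro ⟨x, hx⟩
  obtain ⟨σ, rfl⟩ := QuotientGroup.mk_surjective x
  exact ⟨⟨σ, hx⟩, rfl⟩

theorem qq_cont (T : Subgroup (Gs s)) : Continuous (qq T) :=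
  (continuous_quotient_mk'.comp continuous_subtype_val).subtype_mk _

theorem map_HS {T : Subgroup (Gs s)} (hT : IsOpen (T : Set (Gs s))) :
    (HS T).map (LinearMap.funLeft (ZMod 2) (ZMod 2) (qq T)) = XU (pre T) := by
  ext ψ
  constructor
  · rintro ⟨φ, hφ, rfl⟩
    refine ⟨⟨hφ.1.comp_continuous (qq_cont T), fun x y => ?_⟩, fun σ hσ => ?_⟩
    · exact hφ.2 (qq T x) (qq T y)
    · change φ (qq T σ) = 0
      have h1 : qq T σ = 1 := by
        apply Subtype.ext
        exact (QuotientGroup.eq_one_iff (σ : GK s)).2 hσ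
      rw [h1]
      exact hs_one' hφ
  · rintro ⟨hψ, h0⟩
    have hinv : ∀ σ τ : pre T, qq T σ = qq T τ → ψ σ = ψ τ := by
      intro σ τ h
      have h1 : (QuotientGroup.mk (σ : GK s) : Gs s) = QuotientGroup.mk (τ : GK s) :=
        congrArg Subtype.val h
      rw [QuotientGroup.eq] at h1
      have h2 : τ = σ * (σ⁻¹ * τ) := by group
      have h3 : ψ (σ⁻¹ * τ) = 0 := h0 _ h1
      rw [h2, hψ.2, h3, add_zero]
    let φ : T → ZMod 2 := fun x => ψ (Function.surjInv (qq_surj T) x)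
    have hφq : ∀ σ, φ (qq T σ) = ψ σ := fun σ => hinv _ _ (Function.surjInv_eq (qq_surj T) _)
    refine ⟨φ, ⟨?_, ?_⟩, funext hφq⟩
    · intro S
      have hUo : IsOpen ((pre T : Subgroup (GK s)) : Set (GK s)) := hT.preimage continuous_quotient_mk'
      have h1 : IsOpen (Subtype.val '' (ψ ⁻¹' S) : Set (GK s)) :=
        hUo.isOpenEmbedding_subtypeVal.isOpenMap _ (hψ.1 S)
      have h2 : IsOpen ((QuotientGroup.mk : GK s → Gs s) '' (Subtype.val '' (ψ ⁻¹' S))) :=
        QuotientGroup.isOpenMap_coe _ h1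
      have h3 : φ ⁻¹' S = Subtype.val ⁻¹' ((QuotientGroup.mk : GK s → Gs s) ''
          (Subtype.val '' (ψ ⁻¹' S))) := by
        ext x
        constructor
        · intro hx
          obtain ⟨σ, rfl⟩ := qq_surj T x
          rw [Set.mem_preimage, hφq] at hx
          exact ⟨σ, ⟨σ, hx, rfl⟩, rfl⟩
        · rintro ⟨_, ⟨σ, hσ, rfl⟩, h4⟩
          have h5 : qq T σ = x := Subtype.ext h4
          rw [Set.mem_preimage, ← h5, hφq]
          exact hσ
      rw [h3]
      exact h2.preimage continuous_subtype_val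
    · intro x y
      obtain ⟨σ, rfl⟩ := qq_surj T x
      obtain ⟨τ, rfl⟩ := qq_surj T y
      have h1 : qq T σ * qq T τ = qq T (σ * τ) := rfl
      rw [h1, hφq, hφq, hφq, hψ.2]

theorem stE2 : StE2 := by
  intro hC hD hD3 hE0 hE1 s d hs hF
  refine ⟨?_, ?_, ?_⟩
  · intro T hT
    have hUo : IsOpen ((pre T : Subgroup (GK s)) : Set (GK s)) := hT.preimage continuous_quotient_mk'
    obtain ⟨ι₀⟩ : Nonempty (QB →ₐ[ℚ] PadicAlgCl 2) := ⟨IsAlgClosed.lift⟩
    obtain ⟨h1, -, -⟩ := main hC hD hD3 hE0 hE1 hs hF ι₀ hUo (nf_pre T)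
    have h2 : (pre T).index = T.index :=
      Subgroup.index_comap_of_surjective _ (QuotientGroup.mk'_surjective _)
    have hinj : Function.Injective (LinearMap.funLeft (ZMod 2) (ZMod 2) (qq T)) :=
      LinearMap.funLeft_injective_of_surjective _ _ _ (qq_surj T)
    have h3 := (Submodule.equivMapOfInjective _ hinj (HS T)).finrank_eq
    rw [h3, map_HS hT, h1, h2, one_mul]
  · intro ι₀ U hUo hN φ hφ
    obtain ⟨-, h2, -⟩ := main hC hD hD3 hE0 hE1 hs hF ι₀ hUo hN
    obtain ⟨φ', hφ', h3⟩ := h2 φ hφ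
    exact ⟨φ', hφ'.1, hφ'.2, h3⟩
  · intro φ hφ
    obtain ⟨ι₀⟩ : Nonempty (QB →ₐ[ℚ] PadicAlgCl 2) := ⟨IsAlgClosed.lift⟩
    have hUo : IsOpen (((⊤ : Subgroup (GK s)) : Subgroup (GK s)) : Set (GK s)) := isOpen_univ
    obtain ⟨-, -, h3⟩ := main hC hD hD3 hE0 hE1 hs hF ι₀ hUo le_top
    let φ₁ : (⊤ : Subgroup (GK s)) → ZMod 2 := fun σ => φ (QuotientGroup.mk (σ : GK s))
    have hφ₁ : φ₁ ∈ XU (⊤ : Subgroup (GK s)) := by
      refine ⟨⟨hφ.1.comp_continuous (f := fun σ : (⊤ : Subgroup (GK s)) =>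
        (QuotientGroup.mk (σ : GK s) : Gs s))
        (continuous_quotient_mk'.comp continuous_subtype_val), fun x y => ?_⟩, fun σ hσ => ?_⟩
      · exact hφ.2 (QuotientGroup.mk (x : GK s)) (QuotientGroup.mk (y : GK s))
      · simp only [φ₁]
        have h1 : (QuotientGroup.mk (σ : GK s) : Gs s) = 1 := (QuotientGroup.eq_one_iff (σ : GK s)).2 hσ
        rw [h1]
        exact hs_one' hφ
    obtain ⟨b, x, h4, h5, h6, h7⟩ := h3 φ₁ hφ₁
    refine ⟨b, x, ?_, h5, h6, fun σ => h7 ⟨σ, trivial⟩⟩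
    have h8 := InfiniteGalois.mem_bot_iff_fixed (k := KK s) (K := QB) b
    rw [IntermediateField.mem_bot] at h8
    obtain ⟨q, hq⟩ := h8.2 fun σ => h4 σ trivial
    rw [← hq]
    exact q.2

end Pool.Agent.K7.H29.PS.E2
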