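import Pool.Agent.K7.H29.PS.HB

/-!
# Job H of project PS: the class modulo `4`
-/

set_option autoImplicit false
set_option linter.unusedSectionVars false

namespace Pool.Agent.K7.H29.PS

open Pool.Agent.Y715.Gi (QB KK GK)
open Pool.Agent.Y715.Nr Pool.Agent.W237.RK
open Pool.Agent.Z384 (II DD DDs Fld)
open Pool.Agent.H76.PS

/-! ### roots of unity -/

section root

variable {F : Type} [Field F] {ζ : F}

theorem order16 (h8 : ζ ^ 8 = -1) (h2 : (2 : F) ≠ 0) : orderOf ζ = 16 := by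
  have hp : Fact (Nat.Prime 2) := ⟨Nat.prime_two⟩
  have hne : (-1 : F) ≠ 1 := by
    intro h
    apply h2
    linear_combination -h
  have h : orderOf ζ = 2 ^ (3 + 1) := by
    refine orderOf_eq_prime_pow ?_ ?_
    · rw [show 2 ^ 3 = 8 from rfl, h8]
      exact hne
    · exact pow16 h8
  exact h

/-- `w = ζ ^ (± 3 ^ k)` -/
def PP (ζ w : F) (k : ZMod (2 ^ 2)) : Prop := w = ζ ^ 3 ^ k.val ∨ w = (ζ ^ 3 ^ k.val)⁻¹

theorem three_mod (h8 : ζ ^ 8 = -1) (n : ℕ) : ζ ^ 3 ^ (n % 4) = ζ ^ 3 ^ n := by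
  have h : ∀ k m : ℕ, ζ ^ 3 ^ (m + 4 * k) = ζ ^ 3 ^ m := by
    intro k
    induction k with
    | zero => intro m; rfl
    | succ k ih =>
      intro m
      have e : 3 ^ (m + 4 * (k + 1)) = 16 * (5 * 3 ^ (m + 4 * k)) + 3 ^ (m + 4 * k) := by ring
      rw [e, pow_add, pow_mul, pow16 h8, one_pow, one_mul, ih]
  conv_rhs => rw [← Nat.mod_add_div n 4]
  rw [h]

theorem PP_exists (h8 : ζ ^ 8 = -1) (h2 : (2 : F) ≠ 0) {w : F} (hw : w ^ 8 = -1) :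
    ∃ k, PP ζ w k := by
  have hprim : IsPrimitiveRoot ζ 16 := by
    have := IsPrimitiveRoot.orderOf ζ
    rwa [order16 h8 h2] at this
  have hne : (1 : F) ≠ -1 := by
    intro h
    apply h2
    linear_combination h
  obtain ⟨i, hi, rfl⟩ := hprim.eq_pow_of_pow_eq_one (pow16 hw)
  have hodd : ∀ j : ℕ, i ≠ 2 * j := by
    rintro j rfl
    apply hne
    rw [← hw, ← pow_mul, show 2 * j * 8 = 16 * j by ring, pow_mul, pow16 h8, one_pow]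
  have h16 := pow16 h8
  interval_cases i
  · exact absurd rfl (hodd 0)
  · exact ⟨(0 : ZMod 4), Or.inl (by change ζ ^ 1 = ζ ^ 3 ^ 0; norm_num)⟩
  · exact absurd rfl (hodd 1)
  · exact ⟨(1 : ZMod 4), Or.inl (by change ζ ^ 3 = ζ ^ 3 ^ 1; norm_num)⟩
  · exact absurd rfl (hodd 2)
  · exact ⟨(3 : ZMod 4), Or.inr (by
      change ζ ^ 5 = (ζ ^ 3 ^ 3)⁻¹
      exact (inv_eq h8 _ _ (by norm_num)).symm)⟩
  · exact absurd rfl (hodd 3)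
  · exact ⟨(2 : ZMod 4), Or.inr (by
      change ζ ^ 7 = (ζ ^ 3 ^ 2)⁻¹
      exact (inv_eq h8 _ _ (by norm_num)).symm)⟩
  · exact absurd rfl (hodd 4)
  · exact ⟨(2 : ZMod 4), Or.inl (by change ζ ^ 9 = ζ ^ 3 ^ 2; norm_num)⟩
  · exact absurd rfl (hodd 5)
  · exact ⟨(3 : ZMod 4), Or.inl (by
      change ζ ^ 11 = ζ ^ 3 ^ 3
      rw [show 3 ^ 3 = 16 + 11 from rfl, pow_add, h16, one_mul])⟩
  · exact absurd rfl (hodd 6)
  · exact ⟨(1 : ZMod 4), Or.inr (by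
      change ζ ^ 13 = (ζ ^ 3 ^ 1)⁻¹
      exact (inv_eq h8 _ _ (by norm_num)).symm)⟩
  · exact absurd rfl (hodd 7)
  · exact ⟨(0 : ZMod 4), Or.inr (by
      change ζ ^ 15 = (ζ ^ 3 ^ 0)⁻¹
      exact (inv_eq h8 _ _ (by norm_num)).symm)⟩

theorem dec1 : ∀ a b : ZMod 4, 3 ^ a.val ≡ 3 ^ b.val [MOD 16] → a = b := by decide

theorem dec2 : ∀ a b : ZMod 4, 3 ^ a.val + 3 ^ b.val ≡ 0 [MOD 16] → a = b := by decide

theorem modEq_of (h8 : ζ ^ 8 = -1) (h2 : (2 : F) ≠ 0) {m n : ℕ} (h : ζ ^ m = ζ ^ n) :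
    m ≡ n [MOD 16] := by
  have hprim : IsPrimitiveRoot ζ 16 := by
    have := IsPrimitiveRoot.orderOf ζ
    rwa [order16 h8 h2] at this
  have e : ∀ k, ζ ^ k = ζ ^ (k % 16) := by
    intro k
    conv_lhs => rw [← Nat.mod_add_div k 16, pow_add, pow_mul, pow16 h8, one_pow, mul_one]
  rw [e m, e n] at h
  exact hprim.pow_inj (Nat.mod_lt _ (by norm_num)) (Nat.mod_lt _ (by norm_num)) h

theorem PP_unique (h8 : ζ ^ 8 = -1) (h2 : (2 : F) ≠ 0) {w : F} {a b : ZMod (2 ^ 2)}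
    (ha : PP ζ w a) (hb : PP ζ w b) : a = b := by
  have hz : ζ ≠ 0 := ze0 h8
  have k1 : ζ ^ 3 ^ a.val = ζ ^ 3 ^ b.val → a = b := by
    intro h
    exact dec1 a b (modEq_of h8 h2 h)
  have k2 : ζ ^ 3 ^ a.val = (ζ ^ 3 ^ b.val)⁻¹ → a = b := by
    intro h
    have h' : ζ ^ (3 ^ a.val + 3 ^ b.val) = ζ ^ 0 := by
      rw [pow_add, h, inv_mul_cancel₀ (pow_ne_zero _ hz), pow_zero]
    exact dec2 a b (modEq_of h8 h2 h')
  rcases ha with ha | ha <;> rcases hb with hb | hb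
  · exact k1 (ha.symm.trans hb)
  · exact k2 (ha.symm.trans hb)
  · refine k2 ?_
    rw [← hb, ha, inv_inv]
  · exact k1 (inv_injective (ha.symm.trans hb))

theorem PP_map (h8 : ζ ^ 8 = -1) (σ : F →+* F) {w : F} {a b : ZMod (2 ^ 2)} (ha : PP ζ (σ ζ) a)
    (hb : PP ζ w b) : PP ζ (σ w) (a + b) := by
  have hv : ζ ^ 3 ^ (a + b).val = ζ ^ (3 ^ a.val * 3 ^ b.val) := by
    have h : (a + b).val = (a.val + b.val) % 4 := ZMod.val_add a b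
    rw [h, three_mod h8, pow_add]
  unfold PP
  rw [hv, pow_mul]
  rcases ha with ha | ha <;> rcases hb with hb | hb
  · left
    rw [hb, map_pow, ha]
  · right
    rw [hb, map_inv₀, map_pow, ha]
  · right
    rw [hb, map_pow, ha, inv_pow]
  · left
    rw [hb, map_inv₀, map_pow, ha, inv_pow, inv_inv]

theorem ee_inj (h8 : ζ ^ 8 = -1) (h2 : (2 : F) ≠ 0) {a b : ZMod (2 ^ 2)} (h : ee ζ a = ee ζ b) :
    a = b := by
  have h1 := (prim4 h8 h2).pow_inj (ZMod.val_lt a) (ZMod.val_lt b) h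
  exact ZMod.val_injective _ h1

theorem ee_exists (h8 : ζ ^ 8 = -1) (h2 : (2 : F) ≠ 0) {u v : F} (hv : v ≠ 0) (h : u ^ 4 = v ^ 4) :
    ∃ k, u = v * ee ζ k := by
  have h1 : (u / v) ^ 4 = 1 := by
    rw [div_pow, h, div_self (pow_ne_zero 4 hv)]
  obtain ⟨i, hi, h3⟩ := (prim4 h8 h2).eq_pow_of_pow_eq_one h1
  refine ⟨((i : ℕ) : ZMod 4), ?_⟩
  have h4 : ee ζ ((i : ℕ) : ZMod 4) = (ζ ^ 4) ^ i := by
    unfold ee
    have : (((i : ℕ) : ZMod 4)).val = i := ZMod.val_cast_of_lt hi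
    exact congrArg (fun j => (ζ ^ 4) ^ j) this
  rw [h4, h3]
  field_simp

theorem ee_four (h8 : ζ ^ 8 = -1) (a : ZMod (2 ^ 2)) : ee ζ a ^ 4 = 1 := by
  unfold ee
  rw [← pow_mul, ← pow_mul, show 4 * (a.val * 4) = 16 * a.val by ring, pow_mul, pow16 h8, one_pow]

theorem th_ne (h8 : ζ ^ 8 = -1) (h2 : (2 : F) ≠ 0) (n : ℕ) : th ζ n ≠ 0 := by
  intro h
  apply h2
  rw [← th_prod h8 n, h]
  ring

theorem Dd_ne (h8 : ζ ^ 8 = -1) (h2 : (2 : F) ≠ 0) (n : ℕ) : Dd ζ n ≠ 0 :=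
  mul_ne_zero (mul_ne_zero (th_ne h8 h2 _) (pow_ne_zero _ (th_ne h8 h2 _)))
    (pow_ne_zero _ (th_ne h8 h2 _))

theorem Ph_ne (h8 : ζ ^ 8 = -1) (h2 : (2 : F) ≠ 0) {r : F} (hr0 : r ≠ 0) (n : ℕ) : Ph ζ r n ≠ 0 :=
  div_ne_zero (Finset.prod_ne_zero_iff.2 fun i _ => th_ne h8 h2 i) (pow_ne_zero n hr0)

end root

theorem QB2 : (2 : QB) ≠ 0 := two_ne_zero

/-- `θ_n` is a `2`-unit -/
theorem th_int {ζ : QB} (h8 : ζ ^ 8 = -1) (n : ℕ) : IsIntegral ℤ (th ζ n) := by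
  have h1 : IsIntegral ℤ ζ := by
    refine IsIntegral.of_pow (n := 16) (by norm_num) ?_
    rw [pow16 h8]
    exact isIntegral_one
  have h2 : IsIntegral ℤ ζ⁻¹ := by
    refine IsIntegral.of_pow (n := 16) (by norm_num) ?_
    rw [inv_pow, pow16 h8, inv_one]
    exact isIntegral_one
  unfold th
  rw [← inv_pow]
  have h3 : IsIntegral ℤ (2 : QB) := by simpa using int_two 1
  exact (h3.add (h1.pow _)).add (h2.pow _)

theorem th_tu {ζ : QB} (h8 : ζ ^ 8 = -1) (n : ℕ) : TwoUnit (th ζ n) := by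
  refine ⟨th_ne h8 QB2 n, 1, ?_, ?_⟩
  · exact (int_two 1).mul (th_int h8 n)
  · have h : (2 : QB) ^ 1 * (th ζ n)⁻¹ = th ζ (n + 1) * th ζ (n + 2) * th ζ (n + 3) := by
      have hn := th_ne h8 QB2 n
      rw [pow_one]
      field_simp
      linear_combination -th_prod h8 n
    rw [h]
    exact ((th_int h8 _).mul (th_int h8 _)).mul (th_int h8 _)

theorem tu_pow {x : QB} (hx : TwoUnit x) (n : ℕ) : TwoUnit (x ^ n) := by
  induction n with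
  | zero => rw [pow_zero]; exact tu_one
  | succ n ih => rw [pow_succ]; exact tu_mul ih hx

theorem Dd_tu {ζ : QB} (h8 : ζ ^ 8 = -1) (n : ℕ) : TwoUnit (Dd ζ n) :=
  tu_mul (tu_mul (th_tu h8 _) (tu_pow (th_tu h8 _) 2)) (tu_pow (th_tu h8 _) 3)

/-! ### Kummer cocycles modulo `4` -/

section kum

variable {s : QB} {ζ : QB} {χ : GK s → ℤ_[2]}

/-- the cyclotomic character modulo `4` -/
noncomputable def c4 (χ : GK s → ℤ_[2]) (σ : GK s) : ZMod (2 ^ 2) := PadicInt.toZModPow 2 (χ σ)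

theorem map_ee (h8 : ζ ^ 8 = -1) (hχ : IsCyc χ) (σ : GK s) (a : ZMod (2 ^ 2)) :
    σ (ee ζ a) = ee ζ (c4 χ σ * a) := by
  rw [ee_mul h8]
  exact hχ σ 2 (ee ζ a) (ee_four h8 a)

/-- `κ` is the Kummer cocycle of `x` -/
def Kum (ζ x : QB) (κ : GK s → ZMod (2 ^ 2)) : Prop := ∀ σ : GK s, σ x = x * ee ζ (κ σ)

theorem Kum.mul (h8 : ζ ^ 8 = -1) (hχ : IsCyc χ) {x : QB} (hx : x ≠ 0) {κ : GK s → ZMod (2 ^ 2)}
    (h : Kum ζ x κ) (σ τ : GK s) : κ (σ * τ) = κ σ + c4 χ σ * κ τ := by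
  apply ee_inj h8 QB2
  apply mul_left_cancel₀ hx
  rw [← h, AlgEquiv.mul_apply, h τ, map_mul, h σ, map_ee h8 hχ, ee_add h8]
  ring

theorem Kum.inv (h8 : ζ ^ 8 = -1) {x : QB} (hx : x ≠ 0) {κ : GK s → ZMod (2 ^ 2)}
    (h : Kum ζ x κ) (σ τ : GK s) (hτ : τ x = x) : κ (σ * τ) = κ σ := by
  apply ee_inj h8 QB2
  apply mul_left_cancel₀ hx
  rw [← h, ← h, AlgEquiv.mul_apply, hτ]

theorem exists_kum (h8 : ζ ^ 8 = -1) {x : QB} (hx : x ≠ 0) (h : ∀ σ : GK s, σ (x ^ 4) = x ^ 4) :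
    ∃ κ : GK s → ZMod (2 ^ 2), Kum ζ x κ := by
  have h1 : ∀ σ : GK s, ∃ k, σ x = x * ee ζ k := by
    intro σ
    refine ee_exists h8 QB2 hx ?_
    rw [← map_pow, h]
  choose κ hκ using h1
  exact ⟨κ, hκ⟩

/-- `l` is the character of `ℚ(ζ₁₆)⁺` -/
def Cyc4 (ζ : QB) (l : GK s → ZMod (2 ^ 2)) : Prop := ∀ σ : GK s, PP ζ (σ ζ) (l σ)

theorem exists_cyc4 (h8 : ζ ^ 8 = -1) : ∃ l : GK s → ZMod (2 ^ 2), Cyc4 ζ l := by
  have h1 : ∀ σ : GK s, ∃ k, PP ζ (σ ζ) k := by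
    intro σ
    refine PP_exists h8 QB2 ?_
    rw [← map_pow, h8, map_neg, map_one]
  choose l hl using h1
  exact ⟨l, hl⟩

theorem Cyc4.mul (h8 : ζ ^ 8 = -1) {l : GK s → ZMod (2 ^ 2)} (h : Cyc4 ζ l) (σ τ : GK s) :
    l (σ * τ) = l σ + l τ :=
  PP_unique h8 QB2 (h (σ * τ)) (PP_map h8 (σ : QB →+* QB) (h σ) (h τ))

theorem Cyc4.inv (h8 : ζ ^ 8 = -1) {l : GK s → ZMod (2 ^ 2)} (h : Cyc4 ζ l) (σ τ : GK s)
    (hτ : τ ζ = ζ) : l (σ * τ) = l σ := by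
  refine PP_unique h8 QB2 (h (σ * τ)) ?_
  rw [AlgEquiv.mul_apply, hτ]
  exact h σ

/-- the cochain `f` -/
def Ff (ζ r y : QB) (l f : GK s → ZMod (2 ^ 2)) : Prop :=
  ∀ σ : GK s, σ y = y * Ph ζ r (l σ).val * ee ζ (f σ)

theorem exists_Ff (h8 : ζ ^ 8 = -1) {r y : QB} (hr : r ^ 4 = 2) (hy : y ^ 4 = Dd ζ 0)
    {l : GK s → ZMod (2 ^ 2)} (hl : Cyc4 ζ l) : ∃ f, Ff ζ r y l f := by
  have hr0 : r ≠ 0 := by
    rintro rfl
    norm_num at hr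
  have hy0 : y ≠ 0 := by
    rintro rfl
    exact Dd_ne h8 QB2 0 (by rw [← hy]; norm_num)
  have h1 : ∀ σ : GK s, ∃ k, σ y = y * Ph ζ r (l σ).val * ee ζ k := by
    intro σ
    refine ee_exists h8 QB2 (mul_ne_zero hy0 (Ph_ne h8 QB2 hr0 _)) ?_
    rw [← map_pow, hy, mul_pow, hy, Ph_pow h8 hr hr0]
    exact map_Dd (σ : QB →+* QB) (hl σ)
  choose f hf using h1
  exact ⟨f, hf⟩

theorem Ff.inv (h8 : ζ ^ 8 = -1) {r y : QB} (hr : r ^ 4 = 2) (hy : y ^ 4 = Dd ζ 0)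
    {l f : GK s → ZMod (2 ^ 2)} (hl : Cyc4 ζ l) (hf : Ff ζ r y l f) (σ τ : GK s)
    (hτ : τ y = y) (hτz : τ ζ = ζ) : f (σ * τ) = f σ := by
  have hr0 : r ≠ 0 := by
    rintro rfl
    norm_num at hr
  have hy0 : y ≠ 0 := by
    rintro rfl
    exact Dd_ne h8 QB2 0 (by rw [← hy]; norm_num)
  apply ee_inj h8 QB2
  apply mul_left_cancel₀ (mul_ne_zero hy0 (Ph_ne h8 QB2 hr0 (l σ).val))
  rw [← hf σ]
  have h1 := hf (σ * τ)
  rw [hl.inv h8 σ τ hτz, AlgEquiv.mul_apply, hτ] at h1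
  exact h1.symm

theorem Ff.key (h8 : ζ ^ 8 = -1) (hχ : IsCyc χ) {r y : QB} (hr : r ^ 4 = 2) (hy : y ^ 4 = Dd ζ 0)
    {l f κ : GK s → ZMod (2 ^ 2)} (hl : Cyc4 ζ l) (hf : Ff ζ r y l f) (hκ : Kum ζ r κ)
    (σ τ : GK s) : κ σ * l τ = f σ + c4 χ σ * f τ - f (σ * τ) := by
  have hr0 : r ≠ 0 := by
    rintro rfl
    norm_num at hr
  have hy0 : y ≠ 0 := by
    rintro rfl
    exact Dd_ne h8 QB2 0 (by rw [← hy]; norm_num)
  have hP : Ph ζ r (l (σ * τ)).val = Ph ζ r ((l σ).val + (l τ).val) := by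
    rw [hl.mul h8]
    have h : (l σ + l τ).val = ((l σ).val + (l τ).val) % 4 := ZMod.val_add _ _
    rw [h, Ph_mod h8 hr hr0]
  have hTh : Th ζ (l σ).val * σ (Th ζ (l τ).val) = Th ζ ((l σ).val + (l τ).val) :=
    map_Th (σ : QB →+* QB) (hl σ) _
  have hel : ee ζ (κ σ * l τ) = ee ζ (κ σ) ^ (l τ).val := by
    rw [mul_comm, ee_mul h8]
  have h1 : σ (Ph ζ r (l τ).val) * Ph ζ r (l σ).val * ee ζ (κ σ * l τ) =
      Ph ζ r ((l σ).val + (l τ).val) := by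
    rw [hel]
    have h5 : ee ζ (κ σ) ≠ 0 := ee_ne h8 _
    unfold Ph
    rw [map_div₀, map_pow, hκ σ, ← hTh, mul_pow, pow_add]
    field_simp
  have h2 : f (σ * τ) + κ σ * l τ = f σ + c4 χ σ * f τ := by
    apply ee_inj h8 QB2
    apply mul_left_cancel₀ (mul_ne_zero hy0 (Ph_ne h8 QB2 hr0 ((l σ).val + (l τ).val)))
    rw [ee_add h8, ee_add h8]
    have h3 := hf (σ * τ)
    rw [hP, AlgEquiv.mul_apply, hf τ, map_mul, map_mul, hf σ, map_ee h8 hχ] at h3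
    calc y * Ph ζ r ((l σ).val + (l τ).val) * (ee ζ (f (σ * τ)) * ee ζ (κ σ * l τ))
        = (y * Ph ζ r ((l σ).val + (l τ).val) * ee ζ (f (σ * τ))) * ee ζ (κ σ * l τ) := by ring
      _ = (y * Ph ζ r (l σ).val * ee ζ (f σ) * σ (Ph ζ r (l τ).val) * ee ζ (c4 χ σ * f τ)) *
            ee ζ (κ σ * l τ) := by rw [← h3]
      _ = y * (σ (Ph ζ r (l τ).val) * Ph ζ r (l σ).val * ee ζ (κ σ * l τ)) *
            (ee ζ (f σ) * ee ζ (c4 χ σ * f τ)) := by ring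
      _ = _ := by rw [h1]
  rw [← h2]
  ring

/-- the action of complex conjugation -/
theorem Kum.conj (h8 : ζ ^ 8 = -1) (hχ : IsCyc χ) {c : QB ≃ₐ[ℚ] QB} (hc : IsConj c)
    {cj : GK s → GK s} (hcj : ∀ σ x, cj σ x = c (σ (c x))) {r x : QB} (hr : r ^ 4 = 2)
    {κ₂ κ : GK s → ZMod (2 ^ 2)} (hκ₂ : Kum ζ r κ₂) (hx : x ≠ 0) (hκ : Kum ζ x κ) {j : ℤ}
    (hj : x ^ 4 * c (x ^ 4) = 2 ^ j) :
    ∃ m : ZMod (2 ^ 2), ∀ σ, κ (cj σ) = κ σ - ((j : ZMod (2 ^ 2)) * κ₂ σ + m * (c4 χ σ - 1)) := by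
  have hr0 : r ≠ 0 := by
    rintro rfl
    norm_num at hr
  have hcx : c x ≠ 0 := (map_ne_zero (c : QB →+* QB)).2 hx
  have h1 : (x * c x) ^ 4 = (r ^ j) ^ 4 := by
    rw [mul_pow, ← map_pow, hj, ← hr, ← zpow_natCast, ← zpow_natCast, ← zpow_mul, ← zpow_mul]
    congr 1
    ring
  obtain ⟨m, hm⟩ := ee_exists h8 QB2 (zpow_ne_zero j hr0) h1
  refine ⟨m, fun σ => ?_⟩
  apply ee_inj h8 QB2
  apply mul_left_cancel₀ hx
  rw [← hκ, hcj]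
  -- `σ (c x)`
  have h2 : c x = r ^ j * ee ζ m / x := by
    rw [← hm]
    field_simp
  have h3 : σ (c x) = c x * ee ζ ((j : ZMod (2 ^ 2)) * κ₂ σ + m * (c4 χ σ - 1) - κ σ) := by
    have h4 : σ (c x) = (r ^ j * ee ζ ((j : ZMod (2 ^ 2)) * κ₂ σ) * ee ζ (c4 χ σ * m)) /
        (x * ee ζ (κ σ)) := by
      rw [h2, map_div₀, map_mul, map_zpow₀, hκ₂ σ, map_ee h8 hχ, hκ σ, mul_zpow, ee_int h8]
    have h5 : (j : ZMod (2 ^ 2)) * κ₂ σ + m * (c4 χ σ - 1) - κ σ =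
        (j : ZMod (2 ^ 2)) * κ₂ σ + c4 χ σ * m + (-m) + (-κ σ) := by ring
    rw [h4, h5, ee_add h8, ee_add h8, ee_add h8, ee_neg h8, ee_neg h8, h2]
    have h6 := ee_ne h8 m
    have h7 := ee_ne h8 (κ σ)
    field_simp
  have hce : ∀ a, c (ee ζ a) = ee ζ (-a) := by
    intro a
    rw [ee_neg h8]
    exact conj_root hc (by norm_num : 4 ≠ 0) (ee_four h8 a)
  rw [h3, map_mul, conj_conj hc, hce]
  congr 2
  ring

theorem Cyc4.conj (h8 : ζ ^ 8 = -1) {c : QB ≃ₐ[ℚ] QB} (hc : IsConj c) {cj : GK s → GK s}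
    (hcj : ∀ σ x, cj σ x = c (σ (c x))) {l : GK s → ZMod (2 ^ 2)} (hl : Cyc4 ζ l) (σ : GK s) :
    l (cj σ) = l σ := by
  refine PP_unique h8 QB2 (hl (cj σ)) ?_
  have h1 : c ζ = ζ⁻¹ := conj_root hc (by norm_num) (pow16 h8)
  have h2 : (σ ζ) ^ 16 = 1 := by rw [← map_pow, pow16 h8, map_one]
  have h3 : c (σ ζ) = (σ ζ)⁻¹ := conj_root hc (by norm_num) h2
  rw [hcj, h1, map_inv₀, map_inv₀, h3, inv_inv]
  exact hl σ

end kum

end Pool.Agent.K7.H29.PS
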