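import Pool.Agent.H76.PS.Defs2

/-!
# Job H of project PS, part 1: roots of unity of order `16` and the field `ℚ(ζ₁₆)⁺`
-/

set_option autoImplicit false
set_option linter.unusedSectionVars false

namespace Pool.Agent.K7.H29.PS

open Finset

section alg

variable {F : Type} [Field F] {ζ : F}

/-- `θ_n = 2 + ζ^(3^n) + ζ^(-3^n)` -/
noncomputable def th (ζ : F) (n : ℕ) : F := 2 + ζ ^ 3 ^ n + (ζ ^ 3 ^ n)⁻¹

theorem pow16 (h8 : ζ ^ 8 = -1) : ζ ^ 16 = 1 := by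
  have : ζ ^ 16 = (ζ ^ 8) ^ 2 := by ring
  rw [this, h8]
  ring

theorem ze0 (h8 : ζ ^ 8 = -1) : ζ ≠ 0 := by
  rintro rfl
  norm_num at h8

theorem th_add_four (h8 : ζ ^ 8 = -1) (n : ℕ) : th ζ (n + 4) = th ζ n := by
  have h : ζ ^ 3 ^ (n + 4) = ζ ^ 3 ^ n := by
    have e : 3 ^ (n + 4) = 16 * (5 * 3 ^ n) + 3 ^ n := by ring
    rw [e, pow_add, pow_mul, pow16 h8, one_pow, one_mul]
  unfold th
  rw [h]

theorem inv_eq (h8 : ζ ^ 8 = -1) (k m : ℕ) (h : k + m = 16 * ((k + m) / 16)) : (ζ ^ k)⁻¹ = ζ ^ m := by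
  refine inv_eq_of_mul_eq_one_right ?_
  rw [← pow_add, h, pow_mul, pow16 h8, one_pow]

theorem th_prod (h8 : ζ ^ 8 = -1) (n : ℕ) :
    th ζ n * th ζ (n + 1) * th ζ (n + 2) * th ζ (n + 3) = 2 := by
  induction n with
  | zero =>
    have e0 : th ζ 0 = 2 + ζ - ζ ^ 7 := by
      have h1 : (ζ ^ 3 ^ 0)⁻¹ = ζ ^ 15 := inv_eq h8 _ _ (by norm_num)
      unfold th
      rw [h1]
      linear_combination ζ ^ 7 * h8
    have e1 : th ζ (0 + 1) = 2 + ζ ^ 3 - ζ ^ 5 := by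
      have h1 : (ζ ^ 3 ^ (0 + 1))⁻¹ = ζ ^ 13 := inv_eq h8 _ _ (by norm_num)
      unfold th
      rw [h1]
      linear_combination ζ ^ 5 * h8
    have e2 : th ζ (0 + 2) = 2 - ζ + ζ ^ 7 := by
      have h1 : (ζ ^ 3 ^ (0 + 2))⁻¹ = ζ ^ 7 := inv_eq h8 _ _ (by norm_num)
      unfold th
      rw [h1]
      linear_combination ζ * h8
    have e3 : th ζ (0 + 3) = 2 - ζ ^ 3 + ζ ^ 5 := by
      have h1 : (ζ ^ 3 ^ (0 + 3))⁻¹ = ζ ^ 5 := inv_eq h8 _ _ (by norm_num)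
      unfold th
      rw [h1]
      have : ζ ^ 3 ^ (0 + 3) = ζ ^ 27 := by norm_num
      rw [this]
      linear_combination (ζ ^ 19 - ζ ^ 11 + ζ ^ 3) * h8
    rw [e0, e1, e2, e3]
    have h12 : ζ ^ 12 = - ζ ^ 4 := by linear_combination ζ ^ 4 * h8
    have a1 : (2 + ζ - ζ ^ 7) * (2 - ζ + ζ ^ 7) = 2 - ζ ^ 2 + ζ ^ 6 := by
      linear_combination (2 - ζ ^ 6) * h8
    have a2 : (2 + ζ ^ 3 - ζ ^ 5) * (2 - ζ ^ 3 + ζ ^ 5) = 2 + ζ ^ 2 - ζ ^ 6 := by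
      linear_combination (2 - ζ ^ 2) * h8
    calc (2 + ζ - ζ ^ 7) * (2 + ζ ^ 3 - ζ ^ 5) * (2 - ζ + ζ ^ 7) * (2 - ζ ^ 3 + ζ ^ 5)
        = ((2 + ζ - ζ ^ 7) * (2 - ζ + ζ ^ 7)) * ((2 + ζ ^ 3 - ζ ^ 5) * (2 - ζ ^ 3 + ζ ^ 5)) := by
          ring
      _ = (2 - ζ ^ 2 + ζ ^ 6) * (2 + ζ ^ 2 - ζ ^ 6) := by rw [a1, a2]
      _ = 2 := by linear_combination (2 - ζ ^ 4) * h8
  | succ n ih =>
    have h := th_add_four h8 n
    have e1 : n + 1 + 3 = n + 4 := rfl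
    have e2 : n + 1 + 2 = n + 3 := rfl
    have e3 : n + 1 + 1 = n + 2 := rfl
    rw [e1, e2, e3, h]
    linear_combination ih

/-- `Θ_n`, the product of the first `n` conjugates -/
noncomputable def Th (ζ : F) (n : ℕ) : F := ∏ i ∈ range n, th ζ i

/-- the conjugates of `D` -/
noncomputable def Dd (ζ : F) (l : ℕ) : F := th ζ (l + 1) * th ζ (l + 2) ^ 2 * th ζ (l + 3) ^ 3

theorem Th_add_four (h8 : ζ ^ 8 = -1) (n : ℕ) : Th ζ (n + 4) = 2 * Th ζ n := by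
  unfold Th
  rw [prod_range_succ, prod_range_succ, prod_range_succ, prod_range_succ]
  linear_combination (∏ i ∈ range n, th ζ i) * th_prod h8 n

theorem Dd_succ (h8 : ζ ^ 8 = -1) (l : ℕ) : Dd ζ (l + 1) * 2 = Dd ζ l * th ζ l ^ 4 := by
  have h := th_prod h8 l
  have h4 := th_add_four h8 l
  unfold Dd
  have e1 : l + 1 + 3 = l + 4 := rfl
  have e2 : l + 1 + 2 = l + 3 := rfl
  have e3 : l + 1 + 1 = l + 2 := rfl
  rw [e1, e2, e3, h4]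
  linear_combination -(th ζ (l + 2) * th ζ (l + 3) ^ 2 * th ζ l ^ 3) * h

theorem Dd_eq (h8 : ζ ^ 8 = -1) (l : ℕ) : Dd ζ l * 2 ^ l = Dd ζ 0 * Th ζ l ^ 4 := by
  induction l with
  | zero => simp [Th]
  | succ l ih =>
    have h1 := Dd_succ h8 l
    have h2 : Th ζ (l + 1) = Th ζ l * th ζ l := by
      unfold Th
      rw [prod_range_succ]
    rw [h2]
    calc Dd ζ (l + 1) * 2 ^ (l + 1) = (Dd ζ (l + 1) * 2) * 2 ^ l := by ring
      _ = (Dd ζ l * 2 ^ l) * th ζ l ^ 4 := by rw [h1]; ring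
      _ = Dd ζ 0 * (Th ζ l * th ζ l) ^ 4 := by rw [ih]; ring

/-- `Θ_n / r^n` -/
noncomputable def Ph (ζ r : F) (n : ℕ) : F := Th ζ n / r ^ n

theorem Ph_add_four (h8 : ζ ^ 8 = -1) {r : F} (hr : r ^ 4 = 2) (hr0 : r ≠ 0) (n : ℕ) :
    Ph ζ r (n + 4) = Ph ζ r n := by
  unfold Ph
  rw [Th_add_four h8, pow_add, hr]
  have h2 : (2 : F) ≠ 0 := by
    rw [← hr]
    exact pow_ne_zero 4 hr0
  field_simp

theorem Ph_mod (h8 : ζ ^ 8 = -1) {r : F} (hr : r ^ 4 = 2) (hr0 : r ≠ 0) (n : ℕ) :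
    Ph ζ r (n % 4) = Ph ζ r n := by
  have h : ∀ k m : ℕ, Ph ζ r (m + 4 * k) = Ph ζ r m := by
    intro k
    induction k with
    | zero => intro m; rfl
    | succ k ih =>
      intro m
      rw [mul_add, mul_one, ← add_assoc, Ph_add_four h8 hr hr0, ih]
  conv_rhs => rw [← Nat.mod_add_div n 4]
  rw [h]

theorem Ph_pow (h8 : ζ ^ 8 = -1) {r : F} (hr : r ^ 4 = 2) (hr0 : r ≠ 0) (l : ℕ) :
    Dd ζ 0 * Ph ζ r l ^ 4 = Dd ζ l := by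
  have h2 : (2 : F) ≠ 0 := by
    rw [← hr]
    exact pow_ne_zero 4 hr0
  unfold Ph
  rw [div_pow, ← pow_mul, mul_comm l 4, pow_mul, hr]
  rw [mul_div_assoc', ← Dd_eq h8 l]
  field_simp

/-- the action of a homomorphism -/
theorem map_th (σ : F →+* F) {l : ℕ} (h : σ ζ = ζ ^ 3 ^ l ∨ σ ζ = (ζ ^ 3 ^ l)⁻¹) (n : ℕ) :
    σ (th ζ n) = th ζ (l + n) := by
  unfold th
  rw [map_add, map_add, map_inv₀, map_pow, map_ofNat]
  rcases h with h | h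
  · rw [h, ← pow_mul, ← pow_add]
  · rw [h, inv_pow, ← pow_mul, ← pow_add, inv_inv]
    ring

theorem map_Dd (σ : F →+* F) {l : ℕ} (h : σ ζ = ζ ^ 3 ^ l ∨ σ ζ = (ζ ^ 3 ^ l)⁻¹) :
    σ (Dd ζ 0) = Dd ζ l := by
  unfold Dd
  rw [map_mul, map_mul, map_pow, map_pow, map_th σ h, map_th σ h, map_th σ h]

theorem map_Th (σ : F →+* F) {l : ℕ} (h : σ ζ = ζ ^ 3 ^ l ∨ σ ζ = (ζ ^ 3 ^ l)⁻¹) (n : ℕ) :
    Th ζ l * σ (Th ζ n) = Th ζ (l + n) := by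
  unfold Th
  rw [map_prod, prod_range_add]
  congr 1
  exact prod_congr rfl fun i _ => map_th σ h i

end alg

/-! ### fourth roots of unity -/

section four

variable {F : Type} [Field F] {ζ : F}

/-- `e k = ζ₄ ^ k` -/
noncomputable def ee (ζ : F) (k : ZMod (2 ^ 2)) : F := (ζ ^ 4) ^ k.val

theorem ee_pow_mod (h8 : ζ ^ 8 = -1) (n : ℕ) : (ζ ^ 4) ^ (n % 4) = (ζ ^ 4) ^ n := by
  have h : (ζ ^ 4) ^ 4 = 1 := by
    rw [← pow_mul]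
    exact pow16 h8
  conv_rhs => rw [← Nat.mod_add_div n 4, pow_add, pow_mul, h, one_pow, mul_one]

theorem ee_add (h8 : ζ ^ 8 = -1) (a b : ZMod (2 ^ 2)) : ee ζ (a + b) = ee ζ a * ee ζ b := by
  unfold ee
  have h : (a + b).val = (a.val + b.val) % 4 := ZMod.val_add a b
  rw [h, ee_pow_mod h8, pow_add]

theorem ee_mul (h8 : ζ ^ 8 = -1) (a b : ZMod (2 ^ 2)) : ee ζ (a * b) = ee ζ b ^ a.val := by
  unfold ee
  have h : (a * b).val = (a.val * b.val) % 4 := ZMod.val_mul a b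
  rw [h, ee_pow_mod h8, mul_comm a.val, pow_mul]

theorem ee_zero : ee ζ 0 = 1 := by
  unfold ee
  have : (0 : ZMod (2 ^ 2)).val = 0 := rfl
  rw [this, pow_zero]

theorem ee_ne (h8 : ζ ^ 8 = -1) (a : ZMod (2 ^ 2)) : ee ζ a ≠ 0 :=
  pow_ne_zero _ (pow_ne_zero _ (ze0 h8))

theorem ee_neg (h8 : ζ ^ 8 = -1) (a : ZMod (2 ^ 2)) : ee ζ (-a) = (ee ζ a)⁻¹ := by
  refine eq_inv_of_mul_eq_one_left ?_
  rw [← ee_add h8, neg_add_cancel, ee_zero]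

theorem ee_nat (h8 : ζ ^ 8 = -1) (n : ℕ) (a : ZMod (2 ^ 2)) :
    ee ζ ((n : ZMod (2 ^ 2)) * a) = ee ζ a ^ n := by
  induction n with
  | zero => rw [Nat.cast_zero, zero_mul, ee_zero, pow_zero]
  | succ n ih =>
    rw [Nat.cast_succ, add_mul, one_mul, ee_add h8, ih, pow_succ]

theorem ee_int (h8 : ζ ^ 8 = -1) (n : ℤ) (a : ZMod (2 ^ 2)) :
    ee ζ ((n : ZMod (2 ^ 2)) * a) = ee ζ a ^ n := by
  obtain ⟨m, rfl | rfl⟩ := n.eq_nat_or_neg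
  · rw [zpow_natCast, Int.cast_natCast, ee_nat h8]
  · rw [zpow_neg, zpow_natCast, Int.cast_neg, Int.cast_natCast, neg_mul, ee_neg h8, ee_nat h8]

theorem prim4 (h8 : ζ ^ 8 = -1) (h2 : (2 : F) ≠ 0) : IsPrimitiveRoot (ζ ^ 4) 4 := by
  have h1 : (ζ ^ 4) ^ 2 = -1 := by
    rw [← pow_mul]
    exact h8
  have hne : (-1 : F) ≠ 1 := by
    intro h
    apply h2
    linear_combination -h
  have hp : Fact (Nat.Prime 2) := ⟨Nat.prime_two⟩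
  have h : orderOf (ζ ^ 4) = 2 ^ (1 + 1) := by
    refine orderOf_eq_prime_pow ?_ ?_
    · rw [pow_one, h1]
      exact hne
    · rw [show (2 : ℕ) ^ (1 + 1) = 2 * 2 from rfl, pow_mul, h1]
      ring
  have h4 := IsPrimitiveRoot.orderOf (ζ ^ 4)
  rw [h] at h4
  exact h4

end four

end Pool.Agent.K7.H29.PS
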