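import Pool.Agent.K7.H29.PS.HA
import Pool.Agent.R384.Z.Qd

/-!
# Job H of project PS, part 2: `2`-units, complex conjugation, functions on the quotient
-/

set_option autoImplicit false
set_option linter.unusedSectionVars false

namespace Pool.Agent.K7.H29.PS

open Pool.Agent.Y715.Gi (QB KK GK)
open Pool.Agent.Y715.Nr Pool.Agent.W237.RK
open Pool.Agent.Z384 (II DD DDs Fld)
open Pool.Agent.H76.PS

/-! ### two-units -/

theorem tu_one : TwoUnit 1 := ⟨one_ne_zero, 0, by
  rw [pow_zero, one_mul]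
  exact isIntegral_one, by
  rw [pow_zero, one_mul, inv_one]
  exact isIntegral_one⟩

theorem tu_two : TwoUnit 2 := by
  refine ⟨two_ne_zero, 1, ?_, ?_⟩
  · have : (2 ^ 1 * 2 : QB) = ((4 : ℤ) : QB) := by norm_num
    rw [this]
    exact isIntegral_algebraMap (R := ℤ) (A := QB) (x := 4)
  · have : (2 ^ 1 * (2 : QB)⁻¹) = 1 := by norm_num
    rw [this]
    exact isIntegral_one

theorem int_two (k : ℕ) : IsIntegral ℤ ((2 : QB) ^ k) := by
  have : (2 : QB) ^ k = algebraMap ℤ QB (2 ^ k) := by simp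
  rw [this]
  exact isIntegral_algebraMap

theorem tu_root {x : QB} {n : ℕ} (hn : n ≠ 0) (h : TwoUnit (x ^ n)) : TwoUnit x := by
  obtain ⟨h0, k, h1, h2⟩ := h
  have hx : x ≠ 0 := by
    rintro rfl
    exact h0 (zero_pow hn)
  obtain ⟨m, rfl⟩ := Nat.exists_eq_succ_of_ne_zero hn
  refine ⟨hx, k, ?_, ?_⟩
  · refine IsIntegral.of_pow (n := m + 1) (Nat.succ_pos m) ?_
    have : (2 ^ k * x) ^ (m + 1) = (2 : QB) ^ (k * m) * (2 ^ k * x ^ (m + 1)) := by ring
    rw [this]
    exact (int_two _).mul h1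
  · refine IsIntegral.of_pow (n := m + 1) (Nat.succ_pos m) ?_
    have : (2 ^ k * x⁻¹) ^ (m + 1) = (2 : QB) ^ (k * m) * (2 ^ k * (x ^ (m + 1))⁻¹) := by
      rw [inv_pow_eq_inv_pow]
      ring
    rw [this]
    exact (int_two _).mul h2
where
  inv_pow_eq_inv_pow {x : QB} {m : ℕ} : (x ^ (m + 1))⁻¹ = x⁻¹ ^ (m + 1) := (inv_pow x (m + 1)).symm

theorem tu_mul {x y : QB} (hx : TwoUnit x) (hy : TwoUnit y) : TwoUnit (x * y) := by
  obtain ⟨h0, k, h1, h2⟩ := hx
  obtain ⟨h0', k', h1', h2'⟩ := hy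
  refine ⟨mul_ne_zero h0 h0', k + k', ?_, ?_⟩
  · have : (2 : QB) ^ (k + k') * (x * y) = (2 ^ k * x) * (2 ^ k' * y) := by ring
    rw [this]
    exact h1.mul h1'
  · have : (2 : QB) ^ (k + k') * (x * y)⁻¹ = (2 ^ k * x⁻¹) * (2 ^ k' * y⁻¹) := by
      rw [mul_inv]
      ring
    rw [this]
    exact h2.mul h2'

theorem tu_map (c : QB →+* QB) {x : QB} (hx : TwoUnit x) : TwoUnit (c x) := by
  obtain ⟨h0, k, h1, h2⟩ := hx
  refine ⟨(map_ne_zero c).2 h0, k, ?_, ?_⟩
  · have h := h1.map c.toIntAlgHom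
    have e : c.toIntAlgHom (2 ^ k * x) = 2 ^ k * c x := by
      change c (2 ^ k * x) = _
      rw [map_mul, map_pow, map_ofNat]
    rwa [e] at h
  · have h := h2.map c.toIntAlgHom
    have e : c.toIntAlgHom (2 ^ k * x⁻¹) = 2 ^ k * (c x)⁻¹ := by
      change c (2 ^ k * x⁻¹) = _
      rw [map_mul, map_pow, map_ofNat, map_inv₀]
    rwa [e] at h

/-- a positive rational `2`-unit is a power of `2` -/
theorem tu_rat {q : ℚ} (hq : 0 < q) (h : TwoUnit (q : QB)) : ∃ j : ℤ, (q : QB) = 2 ^ j := by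
  obtain ⟨_, k, h1, h2⟩ := h
  have key : ∀ r : ℚ, 0 < r → IsIntegral ℤ ((2 : QB) ^ k * (r : QB)) → ∃ a : ℕ, 2 ^ k * r = a := by
    intro r hr h
    have e : (2 : QB) ^ k * (r : QB) = algebraMap ℚ QB (2 ^ k * r) := by
      rw [map_mul, map_pow, eq_ratCast, eq_ratCast]
      push_cast
      rfl
    rw [e, isIntegral_algebraMap_iff (algebraMap ℚ QB).injective] at h
    obtain ⟨a, ha⟩ := IsIntegrallyClosed.isIntegral_iff.1 h
    rw [eq_intCast] at ha
    have ha0 : 0 < a := by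
      have : (0 : ℚ) < (a : ℚ) := by
        rw [ha]
        positivity
      exact_mod_cast this
    lift a to ℕ using ha0.le
    exact ⟨a, by rw [← ha]; push_cast; rfl⟩
  obtain ⟨a, ha⟩ := key q hq h1
  obtain ⟨b, hb⟩ := key q⁻¹ (inv_pos.2 hq) (by push_cast; exact h2)
  have hab : a * b = 2 ^ (2 * k) := by
    have : (a : ℚ) * b = 2 ^ (2 * k) := by
      rw [← ha, ← hb]
      field_simp
      ring
    exact_mod_cast this
  obtain ⟨i, -, hi⟩ := (Nat.dvd_prime_pow Nat.prime_two).1 (Dvd.intro _ hab)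
  refine ⟨(i : ℤ) - k, ?_⟩
  have hq' : q = 2 ^ ((i : ℤ) - k) := by
    rw [zpow_sub₀ two_ne_zero, zpow_natCast, zpow_natCast, eq_div_iff (by positivity), mul_comm, ha,
      hi]
    push_cast
    rfl
  rw [hq']
  push_cast
  rfl

/-! ### complex conjugation -/

section conj

variable {c : QB ≃ₐ[ℚ] QB}

theorem conj_conj (hc : IsConj c) (x : QB) : c (c x) = x := by
  obtain ⟨j, hj⟩ := hc
  apply j.injective
  rw [hj, hj, Complex.conj_conj]

theorem conj_root (hc : IsConj c) {x : QB} {n : ℕ} (hn : n ≠ 0) (hx : x ^ n = 1) : c x = x⁻¹ := by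
  obtain ⟨j, hj⟩ := hc
  apply j.injective
  rw [hj, map_inv₀]
  have h1 : (j x) ^ n = 1 := by rw [← map_pow, hx, map_one]
  have h2 : ‖j x‖ = 1 := Complex.norm_eq_one_of_pow_eq_one h1 hn
  rw [Complex.inv_def, Complex.normSq_eq_norm_sq, h2]
  simp

theorem conj_s (hc : IsConj c) {s : QB} {d : ℕ} (hs : s ^ 2 = -(d : QB)) (hd : d ≠ 0) : c s = -s := by
  obtain ⟨j, hj⟩ := hc
  apply j.injective
  rw [hj, map_neg]
  have h1 : (j s) ^ 2 = -(d : ℂ) := by rw [← map_pow, hs, map_neg, map_natCast]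
  have hre := congrArg Complex.re h1
  have him := congrArg Complex.im h1
  rw [pow_two, Complex.mul_re, Complex.neg_re, Complex.natCast_re] at hre
  rw [pow_two, Complex.mul_im, Complex.neg_im, Complex.natCast_im] at him
  have hd' : (0 : ℝ) < d := by exact_mod_cast Nat.pos_of_ne_zero hd
  have h2 : (j s).re = 0 := by
    by_contra hne
    have h3 : (j s).im = 0 := by
      have : 2 * (j s).re * (j s).im = 0 := by linarith
      rcases mul_eq_zero.1 this with h | h
      · exact absurd (by linarith : (j s).re = 0) hne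
      · exact h
    rw [h3] at hre
    nlinarith [sq_nonneg (j s).re]
  apply Complex.ext
  · rw [Complex.conj_re, Complex.neg_re, h2, neg_zero]
  · rw [Complex.conj_im, Complex.neg_im]

/-- the norm of a `2`-unit of `ℚ(s)` is a power of `2` -/
theorem norm_two (hc : IsConj c) {s : QB} {d : ℕ} (hs : s ^ 2 = -(d : QB)) (hd : d ≠ 0) {b : QB}
    (hb : b ∈ KK s) (hu : TwoUnit b) : ∃ j : ℤ, b * c b = 2 ^ j := by
  obtain ⟨u, v, rfl⟩ := Pool.Agent.Z384.KK_ex hs hb
  have h1 : c ((u : QB) + v * s) = u - v * s := by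
    rw [map_add, map_mul, map_ratCast, map_ratCast, conj_s hc hs hd]
    ring
  have h2 : ((u : QB) + v * s) * c ((u : QB) + v * s) = ((u ^ 2 + d * v ^ 2 : ℚ) : QB) := by
    rw [h1]
    push_cast
    linear_combination -(v : QB) ^ 2 * hs
  have h3 : TwoUnit (((u ^ 2 + d * v ^ 2 : ℚ) : QB)) := by
    rw [← h2]
    exact tu_mul hu (tu_map (c : QB →+* QB) hu)
  have h4 : 0 < u ^ 2 + d * v ^ 2 := by
    refine lt_of_le_of_ne (by positivity) ?_
    intro h
    apply h3.1
    rw [← h, Rat.cast_zero]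
  obtain ⟨j, hj⟩ := tu_rat h4 h3
  exact ⟨j, by rw [h2, hj]⟩

end conj

/-! ### descent to the quotient -/

section desc

variable {s : QB}

theorem lc_of_right {X : Type} {F : GK s → X} {U : Subgroup (GK s)} (hU : IsOpen (U : Set (GK s)))
    (hF : ∀ σ, ∀ τ ∈ U, F (σ * τ) = F σ) : IsLocallyConstant F := by
  rw [IsLocallyConstant.iff_exists_open]
  intro g
  refine ⟨(fun x => g⁻¹ * x) ⁻¹' (U : Set (GK s)), hU.preimage (by fun_prop), ?_, ?_⟩
  · change g⁻¹ * g ∈ U
    rw [inv_mul_cancel]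
    exact U.one_mem
  · intro x hx
    have := hF g _ hx
    simpa using this

/-- the function on the quotient -/
noncomputable def ds {X : Type} (F : GK s → X) (g : Gs s) : X := F (Quotient.out g)

theorem ds_mk {X : Type} {F : GK s → X} {U : Subgroup (GK s)} (hN : Nf s ≤ U)
    (hF : ∀ σ, ∀ τ ∈ U, F (σ * τ) = F σ) (σ : GK s) : ds F (QuotientGroup.mk σ) = F σ := by
  unfold ds
  obtain ⟨n, hn⟩ := QuotientGroup.mk_out_eq_mul (Nf s) σ
  rw [hn]
  exact hF σ n (hN n.2)

theorem ds_lc {X : Type} {F : GK s → X} {U : Subgroup (GK s)} (hU : IsOpen (U : Set (GK s)))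
    (hN : Nf s ≤ U) (hF : ∀ σ, ∀ τ ∈ U, F (σ * τ) = F σ) : IsLocallyConstant (ds F) := by
  intro S
  have h1 := lc_of_right hU hF S
  have h2 : IsOpen ((QuotientGroup.mk : GK s → Gs s) ⁻¹' (ds F ⁻¹' S)) := by
    convert h1 using 1
    ext σ
    simp only [Set.mem_preimage, ds_mk hN hF]
  exact (QuotientGroup.isQuotientMap_mk (N := Nf s)).isOpen_preimage.1 h2

/-- the `2`-power roots of the `2`-units are fixed by `Nf` -/
theorem fix_sq (hD3 : StD3) (hE0 : StE0) {d : ℕ} (hs : s ^ 2 = -(d : QB)) (hF : Fld d) {x : QB}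
    (hx : TwoUnit (x ^ 2)) (hfix : ∀ σ ∈ Nf s, σ (x ^ 2) = x ^ 2) : ∀ σ ∈ Nf s, σ x = x := by
  classical
  have hx0 : x ≠ 0 := by
    rintro rfl
    exact hx.1 (by norm_num)
  let U : Subgroup (GK s) := MulAction.stabilizer (GK s) (x ^ 2)
  have hUm : ∀ σ : GK s, σ ∈ U ↔ σ (x ^ 2) = x ^ 2 := fun σ => Iff.rfl
  have hUo : IsOpen (U : Set (GK s)) := stabilizer_isOpen_of_isIntegral (K := KK s) (x ^ 2)
  have hVo : IsOpen ((MulAction.stabilizer (GK s) x : Subgroup (GK s)) : Set (GK s)) :=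
    stabilizer_isOpen_of_isIntegral (K := KK s) x
  have hpm : ∀ σ ∈ U, σ x = x ∨ σ x = -x := by
    intro σ hσ
    have h1 : (σ x) ^ 2 = x ^ 2 := by
      rw [← map_pow]
      exact hσ
    exact sq_eq_sq_iff_eq_or_eq_neg.1 h1
  have hne : -x ≠ x := by
    intro h
    have : x + x = 0 := by linear_combination -h
    rw [← two_mul] at this
    rcases mul_eq_zero.1 this with h | h
    · exact two_ne_zero h
    · exact hx0 h
  let φ : U → ZMod 2 := fun σ => if (σ : GK s) x = x then 0 else 1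
  have hφ : φ ∈ HS U := by
    constructor
    · rw [IsLocallyConstant.iff_exists_open]
      intro g
      refine ⟨(fun y : U => ((g : GK s))⁻¹ * (y : GK s)) ⁻¹'
        ((MulAction.stabilizer (GK s) x : Subgroup (GK s)) : Set (GK s)),
        hVo.preimage (by fun_prop), ?_, ?_⟩
      · change (g : GK s)⁻¹ * g ∈ MulAction.stabilizer (GK s) x
        rw [inv_mul_cancel]
        exact Subgroup.one_mem _
      · intro y hy
        have hy' : (((g : GK s))⁻¹ * (y : GK s)) x = x := hy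
        have h1 : (y : GK s) x = (g : GK s) x := by
          have h2 : (y : GK s) = g * (((g : GK s))⁻¹ * (y : GK s)) := by group
          rw [h2, AlgEquiv.mul_apply, hy']
        simp only [φ, h1]
    · intro σ τ
      have h1 : ((σ * τ : U) : GK s) x = (σ : GK s) ((τ : GK s) x) := rfl
      simp only [φ, h1]
      rcases hpm σ σ.2 with h2 | h2 <;> rcases hpm τ τ.2 with h3 | h3
      · rw [h3, h2]; simp
      · rw [h3, map_neg, h2]; simp [hne]
      · rw [h3, h2]; simp [hne]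
      · rw [h3, map_neg, h2, neg_neg]
        simp only [if_true, if_neg hne]
        decide
  have hE := (hE0 s d hs hF).2.2.2.1 U hUo (fun σ hσ => hfix σ hσ) φ hφ ?_
  · intro σ hσ
    have h1 := hE ⟨σ, hfix σ hσ⟩ hσ
    by_contra hcon
    simp only [φ, if_neg hcon] at h1
    exact one_ne_zero h1
  · intro p _ ι hp σ hσ
    have h1 := hD3 s p ι hp σ hσ x 1 (by rw [pow_one]; exact hx) (by rw [pow_one]; exact σ.2)
    simp only [φ, h1, if_true]

theorem fix_pow (hD3 : StD3) (hE0 : StE0) {d : ℕ} (hs : s ^ 2 = -(d : QB)) (hF : Fld d) (n : ℕ) :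
    ∀ x : QB, TwoUnit (x ^ 2 ^ n) → (∀ σ ∈ Nf s, σ (x ^ 2 ^ n) = x ^ 2 ^ n) →
      ∀ σ ∈ Nf s, σ x = x := by
  induction n with
  | zero =>
    intro x _ hfix
    simpa using hfix
  | succ n ih =>
    intro x hx hfix
    have e : x ^ 2 ^ (n + 1) = (x ^ 2) ^ 2 ^ n := by
      rw [← pow_mul, pow_succ, mul_comm]
    rw [e] at hx
    have h1 := ih (x ^ 2) hx (fun σ hσ => by rw [← e]; exact hfix σ hσ)
    exact fix_sq hD3 hE0 hs hF (tu_root (by positivity) hx) h1

end desc

end Pool.Agent.K7.H29.PS
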